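import Mathlib

set_option autoImplicit false

namespace Pool.Agent.Helper280.SI

open scoped ENNReal NNReal

section nord

variable {A : Type*} [CStarAlgebra A]

lemma algMap_real_eq (s : ℝ) : algebraMap ℝ A s = (s : ℂ) • (1 : A) := by
  rw [Algebra.algebraMap_eq_smul_one]
  exact (Complex.coe_smul s (1 : A)).symm

end nord

variable {A B : Type*} [CStarAlgebra A] [CStarAlgebra B] [Nontrivial A] [Nontrivial B]
  [PartialOrder A] [StarOrderedRing A]

/-- The standing hypothesis on the map. -/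
structure SpecIso (T : A →ₗ[ℂ] B) : Prop where
  one : T 1 = 1
  rad : ∀ a : A, spectralRadius ℂ (T a) = spectralRadius ℂ a

lemma norm_sub_lt {x : A} {δ : ℝ} (hδ : 0 < δ) (hx : algebraMap ℝ A δ ≤ x + star x) :
    ∃ s : ℝ, 0 < s ∧ ‖algebraMap ℝ A s - x‖ < s := by
  obtain ⟨s, hs⟩ : ∃ s : ℝ, s = ‖x‖ ^ 2 / δ + δ := ⟨_, rfl⟩
  have hsd : s * δ = ‖x‖ ^ 2 + δ ^ 2 := by
    rw [hs]; field_simp
  have hs0 : 0 < s := by rw [hs]; positivity
  have hsδ : δ ≤ s := by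
    rw [hs]
    have : 0 ≤ ‖x‖ ^ 2 / δ := by positivity
    linarith
  refine ⟨s, hs0, ?_⟩
  have h1 : star (algebraMap ℝ A s - x) * (algebraMap ℝ A s - x)
      = algebraMap ℝ A (s ^ 2) - s • (x + star x) + star x * x := by
    have hstar : star (algebraMap ℝ A s) = algebraMap ℝ A s := by
      rw [Algebra.algebraMap_eq_smul_one]; simp
    rw [star_sub, hstar, Algebra.algebraMap_eq_smul_one, Algebra.algebraMap_eq_smul_one]
    simp only [sub_mul, mul_sub, smul_mul_assoc, one_mul, mul_smul_comm, mul_one, smul_add,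
      smul_sub, smul_smul, pow_two]
    abel
  have h2 : star (algebraMap ℝ A s - x) * (algebraMap ℝ A s - x)
      ≤ algebraMap ℝ A (s ^ 2 - s * δ + ‖x‖ ^ 2) := by
    rw [h1]
    have h3 : s • algebraMap ℝ A δ ≤ s • (x + star x) := smul_le_smul_of_nonneg_left hx hs0.le
    have h4 : star x * x ≤ algebraMap ℝ A (‖x‖ ^ 2) := CStarAlgebra.star_mul_le_algebraMap_norm_sq
    have h5 : algebraMap ℝ A (s ^ 2 - s * δ + ‖x‖ ^ 2)
        = algebraMap ℝ A (s ^ 2) - s • algebraMap ℝ A δ + algebraMap ℝ A (‖x‖ ^ 2) := by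
      simp only [Algebra.algebraMap_eq_smul_one, smul_smul, ← sub_smul, ← add_smul]
    rw [h5]
    gcongr
  have h3 : (0 : ℝ) ≤ s ^ 2 - s * δ + ‖x‖ ^ 2 := by nlinarith [sq_nonneg ‖x‖]
  have h4 := (CStarAlgebra.norm_le_iff_le_algebraMap _ h3 (star_mul_self_nonneg _)).2 h2
  rw [CStarRing.norm_star_mul_self] at h4
  have h5 : ‖algebraMap ℝ A s - x‖ * ‖algebraMap ℝ A s - x‖ < s * s := by nlinarith [sq_nonneg δ]
  nlinarith [norm_nonneg (algebraMap ℝ A s - x)]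

variable {T : A →ₗ[ℂ] B}

omit [Nontrivial B] [PartialOrder A] [StarOrderedRing A] [Nontrivial A] in
lemma SpecIso.map_alg (hT : SpecIso T) (s : ℝ) : T (algebraMap ℝ A s) = algebraMap ℝ B s := by
  rw [algMap_real_eq, algMap_real_eq, map_smul, hT.one]

omit [Nontrivial B] in
/-- (N) -/
lemma SpecIso.isUnit (hT : SpecIso T) {x : A} {δ : ℝ} (hδ : 0 < δ)
    (hx : algebraMap ℝ A δ ≤ x + star x) : IsUnit (T x) := by
  obtain ⟨s, hs0, hs⟩ := norm_sub_lt hδ hx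
  by_contra hu
  have h0 : (0 : ℂ) ∈ spectrum ℂ (T x) := by
    rw [spectrum.zero_mem_iff]; exact hu
  have h1 : (s : ℂ) ∈ spectrum ℂ (T (algebraMap ℝ A s - x)) := by
    have h2 : T (algebraMap ℝ A s - x) = algebraMap ℂ B (s : ℂ) - T x := by
      rw [map_sub, hT.map_alg, algMap_real_eq, ← Algebra.algebraMap_eq_smul_one]
    rw [h2, ← spectrum.singleton_sub_eq]
    exact ⟨(s : ℂ), rfl, 0, h0, by simp⟩
  have h2 : (‖(s : ℂ)‖₊ : ℝ≥0∞) ≤ spectralRadius ℂ (T (algebraMap ℝ A s - x)) :=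
    le_iSup₂ (α := ℝ≥0∞) (f := fun k (_ : k ∈ spectrum ℂ (T (algebraMap ℝ A s - x))) => (‖k‖₊ : ℝ≥0∞)) _ h1
  rw [hT.rad] at h2
  have h3 := h2.trans (spectrum.spectralRadius_le_nnnorm _)
  have h4 : ‖(s : ℂ)‖₊ ≤ ‖algebraMap ℝ A s - x‖₊ := by exact_mod_cast h3
  have h5 : ‖(s : ℂ)‖ ≤ ‖algebraMap ℝ A s - x‖ := h4
  rw [Complex.norm_real, Real.norm_of_nonneg hs0.le] at h5
  linarith

end Pool.Agent.Helper280.SI
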