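import Mathlib
import Pool.Agent.Helper280.SI.Basic

set_option autoImplicit false

namespace Pool.Agent.Helper280.SI

open scoped ENNReal NNReal

variable {A B : Type*} [CStarAlgebra A] [CStarAlgebra B] [Nontrivial A] [Nontrivial B]
  [PartialOrder A] [StarOrderedRing A] {T : A →ₗ[ℂ] B}

omit [Nontrivial A] [Nontrivial B] [PartialOrder A] [StarOrderedRing A] in
lemma isUnit_csmul {c : ℂ} (hc : c ≠ 0) {x : B} : IsUnit (c • x) ↔ IsUnit x :=
  isUnit_smul_iff (Units.mk0 c hc) x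

omit [Nontrivial A] in
lemma add_star_le (w : A) : w + star w ≤ algebraMap ℝ A (2 * ‖w‖) := by
  have h : IsSelfAdjoint (w + star w) := IsSelfAdjoint.add_star_self w
  refine h.le_algebraMap_norm_self.trans ?_
  apply algebraMap_mono
  calc ‖w + star w‖ ≤ ‖w‖ + ‖star w‖ := norm_add_le _ _
    _ = 2 * ‖w‖ := by rw [norm_star]; ring

lemma norm_sq_mem {g : B} : ∃ ν ∈ spectrum ℂ (g * star g), ‖ν‖ = ‖g‖ ^ 2 := by
  obtain ⟨k, hk, h⟩ := spectrum.exists_nnnorm_eq_spectralRadius (g * star g)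
  refine ⟨k, hk, ?_⟩
  rw [(IsSelfAdjoint.mul_star_self g).spectralRadius_eq_nnnorm] at h
  have h1 : ‖k‖₊ = ‖g * star g‖₊ := by exact_mod_cast h
  have h2 : ‖k‖ = ‖g * star g‖ := congrArg NNReal.toReal h1
  rw [h2, CStarRing.norm_self_mul_star, pow_two]

/-- (Nq) -/
lemma SpecIso.norm_inv_le (hT : SpecIso T) {K : ℝ} (hK0 : 0 < K)
    (hK : ∀ b, ∃ a, T a = b ∧ ‖a‖ ≤ K * ‖b‖) {x : A} {δ : ℝ} (hδ : 0 < δ)
    (hx : algebraMap ℝ A (2 * δ) ≤ x + star x) {G : B} (hG1 : G * T x = 1) (hG2 : T x * G = 1) :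
    ‖G‖ ≤ K / δ := by
  obtain ⟨a, ha, han⟩ := hK (star G)
  rw [norm_star] at han
  obtain ⟨ν, hν, hνn⟩ := norm_sq_mem (g := G)
  have key : ‖ν‖ ≤ ‖a‖ / δ := by
    by_contra hcon
    push Not at hcon
    have hνpos : 0 < ‖ν‖ := lt_of_le_of_lt (by positivity) hcon
    have hν0 : ν ≠ 0 := norm_pos_iff.1 hνpos
    have hlt : ‖a‖ < ‖ν‖ * δ := by rwa [div_lt_iff₀ hδ] at hcon
    have hu : IsUnit (T (x - ν⁻¹ • a)) := by
      have hδ' : 0 < 2 * δ - 2 * ‖ν⁻¹ • a‖ := by
        rw [norm_smul, norm_inv]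
        have : ‖ν‖⁻¹ * ‖a‖ < δ := by
          rw [inv_mul_lt_iff₀ hνpos]; exact hlt
        linarith
      apply hT.isUnit hδ'
      have h1 := add_star_le (ν⁻¹ • a)
      have h2 : x - ν⁻¹ • a + star (x - ν⁻¹ • a) = (x + star x) - (ν⁻¹ • a + star (ν⁻¹ • a)) := by
        rw [star_sub]; abel
      rw [h2, map_sub]
      exact sub_le_sub hx h1
    apply hν
    have h3 : algebraMap ℂ B ν - G * star G = ν • (G * T (x - ν⁻¹ • a)) := by
      rw [map_sub, map_smul, ha, mul_sub, hG1, mul_smul_comm, smul_sub, smul_smul,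
        mul_inv_cancel₀ hν0, one_smul, Algebra.algebraMap_eq_smul_one]
    rw [resolventSet, Set.mem_ofPred_eq, h3]
    have hGu : IsUnit G := ⟨⟨G, T x, hG1, hG2⟩, rfl⟩
    have h4 : IsUnit (G * T (x - ν⁻¹ • a)) := hGu.mul hu
    exact (isUnit_csmul hν0).2 h4
  rw [hνn] at key
  have h5 : ‖G‖ ^ 2 ≤ (K * ‖G‖) / δ := key.trans (by gcongr)
  rcases eq_or_lt_of_le (norm_nonneg G) with h0 | h0
  · rw [← h0]; positivity
  · have h6 : ‖G‖ * ‖G‖ ≤ (K / δ) * ‖G‖ := by
      calc ‖G‖ * ‖G‖ = ‖G‖ ^ 2 := by ring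
        _ ≤ _ := h5
        _ = _ := by ring
    exact le_of_mul_le_mul_right h6 h0

/-- (C2) -/
lemma SpecIso.not_isUnit (hT : SpecIso T) {p : A} (hp : 0 ≤ p) (hpu : ¬ IsUnit p) :
    ¬ IsUnit (T p) := by
  intro hu
  obtain ⟨s, hs⟩ : ∃ s : ℝ, s = ‖p‖ := ⟨_, rfl⟩
  have hpsa : star p = p := (IsSelfAdjoint.of_nonneg hp).star_eq
  have hple : p ≤ algebraMap ℝ A s := by
    rw [hs]; exact (IsSelfAdjoint.of_nonneg hp).le_algebraMap_norm_self
  have hs0 : 0 < s := by
    rw [hs, norm_pos_iff]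
    rintro rfl
    rw [map_zero] at hu
    exact not_isUnit_zero hu
  have h0 : (0 : ℂ) ∉ spectrum ℂ (T p) := by
    rw [spectrum.zero_mem_iff]; exact fun h => h hu
  -- numerical range exclusion
  have hex : ∀ (l w : ℂ) (δ : ℝ), w ≠ 0 → 0 < δ →
      algebraMap ℝ A δ ≤ w • (l • (1 : A) - p) + star (w • (l • (1 : A) - p)) →
      l ∉ spectrum ℂ (T p) := by
    intro l w δ hw hδ hle hl
    apply hl
    have h1 := hT.isUnit hδ hle
    rw [map_smul] at h1
    have h2 : IsUnit (T (l • (1 : A) - p)) := (isUnit_csmul hw).1 h1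
    rw [map_sub, map_smul, hT.one] at h2
    rw [resolventSet, Set.mem_ofPred_eq, Algebra.algebraMap_eq_smul_one]
    exact h2
  have hexp : ∀ (l w : ℂ), w • (l • (1 : A) - p) + star (w • (l • (1 : A) - p))
      = algebraMap ℝ A (2 * (w * l).re) - (2 * w.re) • p := by
    intro l w
    rw [star_smul, star_sub, star_smul, star_one, hpsa, algMap_real_eq]
    simp only [smul_sub, smul_smul]
    have e1 : w • p + star w • p = (2 * w.re) • p := by
      rw [← add_smul]
      rw [show w + star w = ((2 * w.re : ℝ) : ℂ) by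
        rw [Complex.star_def, Complex.add_conj], Complex.coe_smul]
    have e2 : (w * l) • (1 : A) + (star w * star l) • (1 : A) = ((2 * (w * l).re : ℝ) : ℂ) • (1 : A) := by
      rw [← add_smul]
      congr 1
      rw [← star_mul', Complex.star_def, Complex.add_conj]
    rw [← e1, ← e2]
    abel
  have hloc : ∀ l ∈ spectrum ℂ (T p), ‖(s : ℂ) - l‖₊ < s.toNNReal := by
    intro l hl
    have him : l.im = 0 := by
      by_contra him
      rcases lt_or_gt_of_ne him with h | h
      · refine hex l Complex.I (2 * (Complex.I * l).re) Complex.I_ne_zero ?_ ?_ hl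
        · simp; linarith
        · rw [hexp]; simp
      · refine hex l (-Complex.I) (2 * (-Complex.I * l).re) (by simp) ?_ ?_ hl
        · simp; linarith
        · rw [hexp]; simp
    have hre0 : 0 ≤ l.re := by
      by_contra hre
      push Not at hre
      refine hex l (-1) (2 * (-1 * l).re) (by simp) ?_ ?_ hl
      · simp; linarith
      · rw [hexp]
        have : (-(2 : ℝ)) • p ≤ 0 := by
          rw [neg_smul]
          have : 0 ≤ (2 : ℝ) • p := smul_nonneg (by norm_num) hp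
          exact neg_nonpos.2 this
        simp only [Complex.neg_re, Complex.one_re]
        rw [show (2 * -(1:ℝ)) = -2 by norm_num]
        rw [le_sub_iff_add_le]
        exact add_le_of_nonpos_right this
    have hres : l.re ≤ s := by
      by_contra hre
      push Not at hre
      refine hex l 1 (2 * (l.re - s)) (by simp) (by linarith) ?_ hl
      rw [hexp]
      simp only [one_mul, Complex.one_re, mul_one]
      have : (2 : ℝ) • p ≤ (2 : ℝ) • algebraMap ℝ A s := smul_le_smul_of_nonneg_left hple (by norm_num)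
      have e : algebraMap ℝ A (2 * (l.re - s)) = algebraMap ℝ A (2 * l.re) - (2 : ℝ) • algebraMap ℝ A s := by
        simp only [Algebra.algebraMap_eq_smul_one, smul_smul, ← sub_smul]
        congr 1; ring
      rw [e]
      exact sub_le_sub_left this _
    have hl0 : l ≠ 0 := fun h => h0 (h ▸ hl)
    have hlre : l = (l.re : ℂ) := by
      apply Complex.ext <;> simp [him]
    have hre1 : 0 < l.re := by
      rcases eq_or_lt_of_le hre0 with h | h
      · exfalso; apply hl0; rw [hlre, ← h]; simp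
      · exact h
    rw [hlre, ← Complex.ofReal_sub]
    rw [← NNReal.coe_lt_coe, coe_nnnorm, Complex.norm_real, Real.coe_toNNReal _ hs0.le,
      Real.norm_eq_abs, abs_of_nonneg (by linarith)]
    linarith
  have hlt : spectralRadius ℂ (T (algebraMap ℝ A s - p)) < (s.toNNReal : ℝ≥0∞) := by
    apply spectrum.spectralRadius_lt_of_forall_lt
    intro k hk
    have h2 : T (algebraMap ℝ A s - p) = algebraMap ℂ B (s : ℂ) - T p := by
      rw [map_sub, hT.map_alg, algMap_real_eq, ← Algebra.algebraMap_eq_smul_one]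
    rw [h2, ← spectrum.singleton_sub_eq] at hk
    obtain ⟨_, rfl, l, hl, rfl⟩ := hk
    exact hloc l hl
  rw [hT.rad] at hlt
  have h1 : (s : ℂ) ∈ spectrum ℂ (algebraMap ℝ A s - p) := by
    rw [algMap_real_eq, ← Algebra.algebraMap_eq_smul_one, ← spectrum.singleton_sub_eq]
    exact ⟨(s : ℂ), rfl, 0, by rw [spectrum.zero_mem_iff]; exact hpu, by simp⟩
  have h2 : (‖(s : ℂ)‖₊ : ℝ≥0∞) ≤ spectralRadius ℂ (algebraMap ℝ A s - p) :=
    le_iSup₂ (α := ℝ≥0∞) (f := fun k (_ : k ∈ spectrum ℂ (algebraMap ℝ A s - p)) => (‖k‖₊ : ℝ≥0∞)) _ h1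
  have h3 := lt_of_le_of_lt h2 hlt
  have h4 : ‖(s : ℂ)‖₊ < s.toNNReal := by exact_mod_cast h3
  rw [← NNReal.coe_lt_coe, coe_nnnorm, Complex.norm_real, Real.coe_toNNReal _ hs0.le,
      Real.norm_eq_abs, abs_of_nonneg hs0.le] at h4
  exact lt_irrefl _ h4

end Pool.Agent.Helper280.SI
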