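import Mathlib
import Pool.Agent.Helper280.SI.Inv

set_option autoImplicit false

namespace Pool.Agent.Helper280.SI

open scoped ENNReal NNReal

section order

variable {A : Type*} [CStarAlgebra A] [PartialOrder A] [StarOrderedRing A]

/-- L1: the order estimate. -/
lemma order_est {a w : A} (hw : IsSelfAdjoint w) {ν : ℝ} (hν : 0 < ν) (ha : ‖a‖ = 1)
    (h : ν • (star a * a) ≤ star a * w * a) :
    algebraMap ℝ A (ν / 2) - (ν + (2 * ‖w‖ ^ 2 / ν + ‖w‖)) • (1 - a * star a) ≤ w := by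
  obtain ⟨e, he⟩ : ∃ e, e = a * star a := ⟨_, rfl⟩
  obtain ⟨f, hf⟩ : ∃ f, f = 1 - e := ⟨_, rfl⟩
  rw [← he, ← hf]
  have hesa : star e = e := by rw [he]; simp
  have hfsa : star f = f := by rw [hf]; simp [hesa]
  have he0 : 0 ≤ e := by rw [he]; exact mul_star_self_nonneg a
  have he1 : e ≤ 1 := by
    have := CStarAlgebra.mul_star_le_algebraMap_norm_sq (a := a)
    rw [ha] at this
    rw [he]; simpa using this
  have hf0 : 0 ≤ f := by rw [hf]; exact sub_nonneg.2 he1
  have hf1 : f ≤ 1 := by rw [hf]; exact sub_le_self _ he0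
  have hff : f * f ≤ f := by
    have h1 : 0 ≤ f * (1 - f) := by
      have : Commute f (1 - f) := (Commute.one_right f).sub_right (Commute.refl f)
      exact this.mul_nonneg hf0 (sub_nonneg.2 hf1)
    rw [mul_sub, mul_one] at h1
    exact sub_nonneg.1 h1
  have hewe : ν • (e * e) ≤ e * w * e := by
    have h1 := star_right_conjugate_le_conjugate h a
    have h2 : a * (ν • (star a * a)) * star a = ν • (e * e) := by
      rw [he, mul_smul_comm, smul_mul_assoc]
      simp only [mul_assoc]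
    have h3 : a * (star a * w * a) * star a = e * w * e := by
      rw [he]; simp only [mul_assoc]
    rwa [h2, h3] at h1
  have hfwwf : f * (w * w) * f ≤ (‖w‖ ^ 2) • (f * f) := by
    have h1 := CStarAlgebra.star_left_conjugate_le_norm_smul (a := f) (b := w * w)
      (by have := IsSelfAdjoint.mul_star_self w; rwa [hw.star_eq] at this)
    rw [hfsa] at h1
    have h2 : ‖w * w‖ = ‖w‖ ^ 2 := by
      have := CStarRing.norm_star_mul_self (x := w)
      rw [hw.star_eq] at this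
      rw [this, pow_two]
    rwa [h2] at h1
  have hfwf : -(‖w‖ • (f * f)) ≤ f * w * f := by
    have h1 := CStarAlgebra.star_left_conjugate_le_norm_smul (a := f) (b := -w) hw.neg
    rw [hfsa, norm_neg, mul_neg, neg_mul] at h1
    exact neg_le.1 h1
  have hcross : -((ν / 2) • (e * e)) - (2 * ‖w‖ ^ 2 / ν) • (f * f) ≤ e * w * f + f * w * e := by
    have h1 : 0 ≤ star ((ν / 2) • e + w * f) * ((ν / 2) • e + w * f) := star_mul_self_nonneg _
    have h2 : star ((ν / 2) • e + w * f) * ((ν / 2) • e + w * f)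
        = (ν / 2) • ((ν / 2) • (e * e) + (e * w * f + f * w * e)) + f * (w * w) * f := by
      rw [star_add, star_smul, star_mul, hesa, hfsa, hw.star_eq]
      simp only [star_trivial, add_mul, mul_add, smul_mul_assoc, mul_smul_comm, smul_smul, smul_add,
        mul_assoc]
      abel
    rw [h2] at h1
    have h3 : 0 ≤ (ν / 2) • ((ν / 2) • (e * e) + (e * w * f + f * w * e)) + (‖w‖ ^ 2) • (f * f) :=
      h1.trans (by gcongr)
    have h4 : 0 ≤ (2 / ν) • ((ν / 2) • ((ν / 2) • (e * e) + (e * w * f + f * w * e))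
        + (‖w‖ ^ 2) • (f * f)) := smul_nonneg (by positivity) h3
    have h5 : (2 / ν) • ((ν / 2) • ((ν / 2) • (e * e) + (e * w * f + f * w * e))
        + (‖w‖ ^ 2) • (f * f)) = (e * w * f + f * w * e) - (-((ν / 2) • (e * e)) - (2 * ‖w‖ ^ 2 / ν) • (f * f)) := by
      rw [smul_add, smul_smul, smul_smul, show 2 / ν * (ν / 2) = 1 by field_simp, one_smul,
        show 2 / ν * ‖w‖ ^ 2 = 2 * ‖w‖ ^ 2 / ν by ring]
      abel
    rw [h5] at h4
    exact sub_nonneg.1 h4
  have hw4 : w = e * w * e + (e * w * f + f * w * e) + f * w * f := by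
    have : e + f = 1 := by rw [hf]; abel
    calc w = (e + f) * w * (e + f) := by rw [this]; simp
      _ = _ := by simp only [add_mul, mul_add]; abel
  have hee : e * e = 1 - (2 : ℝ) • f + f * f := by
    have : e = 1 - f := by rw [hf]; abel
    rw [this]
    simp only [sub_mul, mul_sub, one_mul, mul_one, two_smul]
    abel
  have hlow : ν • (e * e) + (-((ν / 2) • (e * e)) - (2 * ‖w‖ ^ 2 / ν) • (f * f)) + -(‖w‖ • (f * f)) ≤ w := by
    conv_rhs => rw [hw4]
    gcongr
  refine le_trans ?_ hlow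
  have e1 : ν • (e * e) + (-((ν / 2) • (e * e)) - (2 * ‖w‖ ^ 2 / ν) • (f * f)) + -(‖w‖ • (f * f))
      - (algebraMap ℝ A (ν / 2) - (ν + (2 * ‖w‖ ^ 2 / ν + ‖w‖)) • f)
      = (ν / 2) • (f * f) + (2 * ‖w‖ ^ 2 / ν + ‖w‖) • (f - f * f) := by
    rw [hee, Algebra.algebraMap_eq_smul_one]
    simp only [smul_add, smul_sub, smul_smul]
    module
  rw [← sub_nonneg, e1]
  have h6 : 0 ≤ f - f * f := sub_nonneg.2 hff
  have h7 : 0 ≤ f * f := by
    have := star_mul_self_nonneg f
    rwa [hfsa] at this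
  have h8 : 0 ≤ 2 * ‖w‖ ^ 2 / ν + ‖w‖ := by positivity
  exact add_nonneg (smul_nonneg (by positivity) h7) (smul_nonneg h8 h6)

/-- L2: non-invertibility. -/
lemma not_isUnit_p [Nontrivial A] {a b : A} (hb : 0 ≤ b) (hba : b * a = 0) (ha : ‖a‖ = 1) {s : ℝ}
    (hs : 0 < s) : ¬ IsUnit (b + s • (1 - a * star a)) := by
  intro hu
  have he1 : a * star a ≤ 1 := by
    have := CStarAlgebra.mul_star_le_algebraMap_norm_sq (a := a)
    rw [ha] at this
    simpa using this
  have hp0 : 0 ≤ b + s • (1 - a * star a) :=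
    add_nonneg hb (smul_nonneg hs.le (sub_nonneg.2 he1))
  have hspos : ∃ r > 0, algebraMap ℝ A r ≤ b + s • (1 - a * star a) := by
    rw [CFC.exists_pos_algebraMap_le_iff (IsSelfAdjoint.of_nonneg hp0)]
    intro x hx
    have h1 := spectrum_nonneg_of_nonneg hp0 hx
    rcases eq_or_lt_of_le h1 with h | h
    · exfalso
      rw [← h, spectrum.zero_mem_iff] at hx
      exact hx hu
    · exact h
  obtain ⟨r, hr, hle⟩ := hspos
  obtain ⟨g, hg⟩ : ∃ g, g = star a * a := ⟨_, rfl⟩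
  have h1 := star_left_conjugate_le_conjugate hle a
  have hastar : star a * b = 0 := by
    have := congrArg star hba
    rwa [star_mul, star_zero, (IsSelfAdjoint.of_nonneg hb).star_eq] at this
  have h2 : star a * (b + s • (1 - a * star a)) * a = s • g - s • (g * g) := by
    rw [mul_add, hastar, zero_add, mul_smul_comm, smul_mul_assoc, hg]
    simp only [mul_sub, sub_mul, mul_one, smul_sub, mul_assoc]
  have h3 : star a * (algebraMap ℝ A r) * a = r • g := by
    rw [Algebra.algebraMap_eq_smul_one, mul_smul_comm, smul_mul_assoc, mul_one, hg]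
  rw [h2, h3] at h1
  have hg0 : 0 ≤ g := by rw [hg]; exact star_mul_self_nonneg a
  have hgn : ‖g‖ = 1 := by rw [hg, CStarRing.norm_star_mul_self, ha, one_mul]
  have hggn : ‖g * g‖ = 1 := by
    have := CStarRing.norm_star_mul_self (x := g)
    rw [(IsSelfAdjoint.of_nonneg hg0).star_eq, hgn, one_mul] at this
    exact this
  have hgg0 : 0 ≤ g * g := by
    have := star_mul_self_nonneg g
    rwa [(IsSelfAdjoint.of_nonneg hg0).star_eq] at this
  have h4 : s • (g * g) ≤ (s - r) • g := by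
    rw [sub_smul]
    have := le_sub_iff_add_le.1 h1
    rw [le_sub_iff_add_le, add_comm]
    exact this
  have h5 : 0 ≤ s • (g * g) := smul_nonneg hs.le hgg0
  have h6 := CStarAlgebra.norm_le_norm_of_nonneg_of_le h5 h4
  rw [norm_smul, norm_smul, hgn, hggn, mul_one, mul_one, Real.norm_eq_abs, Real.norm_eq_abs,
    abs_of_pos hs] at h6
  rcases le_or_gt 0 (s - r) with h7 | h7
  · rw [abs_of_nonneg h7] at h6; linarith
  · have h8 : (s - r) • g ≤ 0 := smul_nonpos_of_nonpos_of_nonneg h7.le hg0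
    have h9 : s • (g * g) = 0 := le_antisymm (h4.trans h8) h5
    have h10 : ‖s • (g * g)‖ = s := by rw [norm_smul, hggn, mul_one, Real.norm_of_nonneg hs.le]
    rw [h9, norm_zero] at h10
    linarith

end order

variable {A B : Type*} [CStarAlgebra A] [CStarAlgebra B] [Nontrivial A] [Nontrivial B]
  [PartialOrder A] [StarOrderedRing A] {T : A →ₗ[ℂ] B}

/-- Core lemma (Z1), normalised. -/
lemma SpecIso.core_norm (hT : SpecIso T) {K : ℝ} (hK1 : 1 ≤ K)
    (hK : ∀ b, ∃ a, T a = b ∧ ‖a‖ ≤ K * ‖b‖) {b x a : A} {b' : B} (hb : 0 ≤ b)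
    (hx : T x = b' * T b ∨ T x = T b * b') (hba : b * a = 0) {ν : ℝ} (hν : 0 < ν)
    (ha : ‖a‖ = 1) (h : ν • (star a * a) ≤ star a * (x + star x) * a) : False := by
  have hK0 : 0 < K := lt_of_lt_of_le one_pos hK1
  obtain ⟨w, hw⟩ : ∃ w, w = x + star x := ⟨_, rfl⟩
  have hwsa : IsSelfAdjoint w := by rw [hw]; exact IsSelfAdjoint.add_star_self x
  rw [← hw] at h
  obtain ⟨f, hf⟩ : ∃ f, f = 1 - a * star a := ⟨_, rfl⟩
  obtain ⟨D, hD⟩ : ∃ D : ℝ, D = ν + (2 * ‖w‖ ^ 2 / ν + ‖w‖) := ⟨_, rfl⟩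
  have hD0 : 0 ≤ D := by rw [hD]; positivity
  have hord : algebraMap ℝ A (ν / 2) - D • f ≤ w := by
    rw [hD, hf]; exact order_est hwsa hν ha h
  have he1 : a * star a ≤ 1 := by
    have := CStarAlgebra.mul_star_le_algebraMap_norm_sq (a := a)
    rw [ha] at this
    simpa using this
  have hf0 : 0 ≤ f := by rw [hf]; exact sub_nonneg.2 he1
  -- the parameters
  obtain ⟨z, hz⟩ : ∃ z : ℝ, z = 4 * K / ν := ⟨_, rfl⟩
  have hz0 : 0 < z := by rw [hz]; positivity
  obtain ⟨s, hs⟩ : ∃ s : ℝ, s = 1 / (4 * K * (z * ‖b'‖ * K * ‖T f‖ + 1)) := ⟨_, rfl⟩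
  have hs0 : 0 < s := by rw [hs]; positivity
  obtain ⟨t, ht⟩ : ∃ t : ℝ, t = 1 + z * D / (2 * s) + 4 * K * z * ‖b'‖ * (1 + K) := ⟨_, rfl⟩
  have ht0 : 0 < t := by rw [ht]; positivity
  have hts : z * D ≤ 2 * t * s := by
    have h1 : z * D / (2 * s) ≤ t := by
      rw [ht]
      have : 0 ≤ 4 * K * z * ‖b'‖ * (1 + K) := by positivity
      linarith
    rw [div_le_iff₀ (by positivity)] at h1
    linarith
  have hparam1 : z * ‖b'‖ * (s * ‖T f‖ * K) ≤ 1 / (4 * K) := by
    rw [hs, show z * ‖b'‖ * (1 / (4 * K * (z * ‖b'‖ * K * ‖T f‖ + 1)) * ‖T f‖ * K)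
      = 1 / (4 * K) * ((z * ‖b'‖ * K * ‖T f‖) / (z * ‖b'‖ * K * ‖T f‖ + 1)) by field_simp]
    have h1 : (z * ‖b'‖ * K * ‖T f‖) / (z * ‖b'‖ * K * ‖T f‖ + 1) ≤ 1 := by
      rw [div_le_one (by positivity)]; linarith
    calc _ ≤ 1 / (4 * K) * 1 := by gcongr
      _ = _ := mul_one _
  have hparam2 : z * ‖b'‖ * ((1 + K) / t) ≤ 1 / (4 * K) := by
    have h1 : 4 * K * z * ‖b'‖ * (1 + K) ≤ t := by
      rw [ht]
      have : 0 ≤ z * D / (2 * s) := by positivity
      linarith
    rw [show z * ‖b'‖ * ((1 + K) / t) = (z * ‖b'‖ * (1 + K)) / t by ring,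
      div_le_div_iff₀ ht0 (by positivity)]
    linarith
  -- the elements
  obtain ⟨p, hp⟩ : ∃ p, p = b + s • f := ⟨_, rfl⟩
  have hp0 : 0 ≤ p := by rw [hp]; exact add_nonneg hb (smul_nonneg hs0.le hf0)
  have hpsa : star p = p := (IsSelfAdjoint.of_nonneg hp0).star_eq
  have hpu : ¬ IsUnit p := by rw [hp, hf]; exact not_isUnit_p hb hba ha hs0
  have hTpu := hT.not_isUnit hp0 hpu
  obtain ⟨c, hc⟩ : ∃ c, c = 1 + t • p := ⟨_, rfl⟩
  have hcc : c + star c = algebraMap ℝ A 2 + (2 * t) • p := by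
    rw [hc, star_add, star_one, star_smul, hpsa, star_trivial, Algebra.algebraMap_eq_smul_one]
    module
  have hc2 : algebraMap ℝ A (2 * 1) ≤ c + star c := by
    rw [hcc, mul_one]
    exact le_add_of_nonneg_right (smul_nonneg (by positivity) hp0)
  have hTcU : IsUnit (T c) := hT.isUnit (δ := 2 * 1) (by norm_num) hc2
  obtain ⟨uc, huc⟩ := hTcU
  obtain ⟨G, hG⟩ : ∃ G : B, G = ((uc⁻¹ : Bˣ) : B) := ⟨_, rfl⟩
  have hG1 : G * T c = 1 := by rw [hG, ← huc]; exact uc.inv_mul
  have hG2 : T c * G = 1 := by rw [hG, ← huc]; exact uc.mul_inv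
  have hGn : ‖G‖ ≤ K := by
    have := hT.norm_inv_le hK0 hK one_pos hc2 hG1 hG2
    rwa [div_one] at this
  have hTc : T c = 1 + (t : ℂ) • T p := by
    rw [hc, map_add, hT.one]
    congr 1
    rw [← Complex.coe_smul, map_smul]
  have hGge : 1 ≤ ‖G‖ := by
    by_contra hcon
    push Not at hcon
    have h1 : IsUnit (1 - G) := isUnit_one_sub_of_norm_lt_one hcon
    have h2 : IsUnit (T c * (1 - G)) := (show IsUnit (T c) from ⟨uc, huc⟩).mul h1
    rw [mul_sub, mul_one, hG2, hTc, add_sub_cancel_left] at h2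
    exact hTpu ((isUnit_csmul (by exact_mod_cast ht0.ne')).1 h2)
  -- c + z x
  have hcz : algebraMap ℝ A (2 * (1 + K)) ≤ (c + z • x) + star (c + z • x) := by
    have h1 : (c + z • x) + star (c + z • x) = (c + star c) + z • w := by
      rw [hw, star_add, star_smul, star_trivial z]
      module
    rw [h1, hcc]
    have h2 : z • (algebraMap ℝ A (ν / 2) - D • f) ≤ z • w := smul_le_smul_of_nonneg_left hord hz0.le
    have h3 : algebraMap ℝ A (2 * (1 + K)) ≤ algebraMap ℝ A 2 + (2 * t) • p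
        + z • (algebraMap ℝ A (ν / 2) - D • f) := by
      rw [← sub_nonneg]
      have e : algebraMap ℝ A 2 + (2 * t) • p + z • (algebraMap ℝ A (ν / 2) - D • f)
          - algebraMap ℝ A (2 * (1 + K)) = (2 * t) • b + (2 * t * s - z * D) • f := by
        rw [hp]
        simp only [Algebra.algebraMap_eq_smul_one]
        have hzν : z * (ν / 2) = 2 * K := by rw [hz]; field_simp; ring
        simp only [smul_add, smul_sub, smul_smul, sub_smul, hzν, mul_add, add_smul]
        module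
      rw [e]
      exact add_nonneg (smul_nonneg (by positivity) hb) (smul_nonneg (by linarith) hf0)
    exact h3.trans (by gcongr)
  have hHU : IsUnit (T (c + z • x)) := hT.isUnit (δ := 2 * (1 + K)) (by positivity) hcz
  obtain ⟨uh, huh⟩ := hHU
  obtain ⟨H, hH⟩ : ∃ H : B, H = ((uh⁻¹ : Bˣ) : B) := ⟨_, rfl⟩
  have hH1 : H * T (c + z • x) = 1 := by rw [hH, ← huh]; exact uh.inv_mul
  have hH2 : T (c + z • x) * H = 1 := by rw [hH, ← huh]; exact uh.mul_inv
  have hHn : ‖H‖ ≤ K / (1 + K) := hT.norm_inv_le hK0 hK (by positivity) hcz hH1 hH2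
  have hTcz : T (c + z • x) = T c + (z : ℂ) • T x := by
    rw [map_add]
    congr 1
    rw [← Complex.coe_smul, map_smul]
  have hTp : T p = T b + (s : ℂ) • T f := by
    rw [hp, map_add]
    congr 1
    rw [← Complex.coe_smul, map_smul]
  -- T b * G and G * T b
  have ht0' : (t : ℂ) ≠ 0 := by exact_mod_cast ht0.ne'
  have hTbG : T b * G = (t : ℂ)⁻¹ • (1 - G) - (s : ℂ) • (T f * G) := by
    have h1 : (t : ℂ) • (T p * G) = 1 - G := by
      have := hG2
      rw [hTc, add_mul, one_mul, smul_mul_assoc] at this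
      rw [← this]; abel
    rw [← h1, smul_smul, inv_mul_cancel₀ ht0', one_smul, hTp, add_mul, smul_mul_assoc]
    abel
  have hGTb : G * T b = (t : ℂ)⁻¹ • (1 - G) - (s : ℂ) • (G * T f) := by
    have h1 : (t : ℂ) • (G * T p) = 1 - G := by
      have := hG1
      rw [hTc, mul_add, mul_one, mul_smul_comm] at this
      rw [← this]; abel
    rw [← h1, smul_smul, inv_mul_cancel₀ ht0', one_smul, hTp, mul_add, mul_smul_comm]
    abel
  have hη1 : ‖T b * G‖ ≤ (1 + K) / t + s * ‖T f‖ * K := by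
    rw [hTbG]
    refine (norm_sub_le _ _).trans ?_
    rw [norm_smul, norm_smul, norm_inv, Complex.norm_real, Complex.norm_real,
      Real.norm_of_nonneg ht0.le, Real.norm_of_nonneg hs0.le]
    have h1 : ‖(1 : B) - G‖ ≤ 1 + K := (norm_sub_le _ _).trans (by rw [norm_one]; gcongr)
    have h2 : ‖T f * G‖ ≤ ‖T f‖ * K := (norm_mul_le _ _).trans (by gcongr)
    calc t⁻¹ * ‖1 - G‖ + s * ‖T f * G‖ ≤ t⁻¹ * (1 + K) + s * (‖T f‖ * K) := by gcongr
      _ = _ := by ring
  have hη2 : ‖G * T b‖ ≤ (1 + K) / t + s * ‖T f‖ * K := by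
    rw [hGTb]
    refine (norm_sub_le _ _).trans ?_
    rw [norm_smul, norm_smul, norm_inv, Complex.norm_real, Complex.norm_real,
      Real.norm_of_nonneg ht0.le, Real.norm_of_nonneg hs0.le]
    have h1 : ‖(1 : B) - G‖ ≤ 1 + K := (norm_sub_le _ _).trans (by rw [norm_one]; gcongr)
    have h2 : ‖G * T f‖ ≤ K * ‖T f‖ := (norm_mul_le _ _).trans (by gcongr)
    calc t⁻¹ * ‖1 - G‖ + s * ‖G * T f‖ ≤ t⁻¹ * (1 + K) + s * (K * ‖T f‖) := by gcongr
      _ = _ := by ring
  have hfin : ∀ Y : B, z * ‖Y‖ ≤ 1 / (2 * K) → ‖G‖ ≤ ‖H‖ * ‖1 + (z : ℂ) • Y‖ → False := by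
    intro Y hY hG'
    have h1 : ‖1 + (z : ℂ) • Y‖ ≤ 1 + 1 / (2 * K) := by
      refine (norm_add_le _ _).trans ?_
      rw [norm_one, norm_smul, Complex.norm_real, Real.norm_of_nonneg hz0.le]
      gcongr
    have h2 : (1 : ℝ) ≤ K / (1 + K) * (1 + 1 / (2 * K)) :=
      hGge.trans (hG'.trans (by gcongr))
    rw [show K / (1 + K) * (1 + 1 / (2 * K)) = (K + 1 / 2) / (1 + K) by field_simp,
      le_div_iff₀ (by positivity)] at h2
    linarith
  have hbound : z * (‖b'‖ * ((1 + K) / t + s * ‖T f‖ * K)) ≤ 1 / (2 * K) := by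
    have : z * (‖b'‖ * ((1 + K) / t + s * ‖T f‖ * K))
        = z * ‖b'‖ * ((1 + K) / t) + z * ‖b'‖ * (s * ‖T f‖ * K) := by ring
    rw [this]
    calc _ ≤ 1 / (4 * K) + 1 / (4 * K) := add_le_add hparam2 hparam1
      _ = _ := by field_simp; norm_num
  rcases hx with hx | hx
  · -- X G
    apply hfin (T x * G)
    · refine le_trans ?_ hbound
      gcongr
      rw [hx, mul_assoc]
      exact (norm_mul_le _ _).trans (by gcongr)
    · have h1 : G = H * (1 + (z : ℂ) • (T x * G)) := by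
        have h2 : T (c + z • x) * G = 1 + (z : ℂ) • (T x * G) := by
          rw [hTcz, add_mul, hG2, smul_mul_assoc]
        rw [← h2, ← mul_assoc, hH1, one_mul]
      calc ‖G‖ = ‖H * (1 + (z : ℂ) • (T x * G))‖ := by rw [← h1]
        _ ≤ _ := norm_mul_le _ _
  · apply hfin (G * T x)
    · refine le_trans ?_ hbound
      rw [hx, ← mul_assoc]
      have : ‖G * T b * b'‖ ≤ ((1 + K) / t + s * ‖T f‖ * K) * ‖b'‖ :=
        (norm_mul_le _ _).trans (by gcongr)
      calc z * ‖G * T b * b'‖ ≤ z * (((1 + K) / t + s * ‖T f‖ * K) * ‖b'‖) := by gcongr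
        _ = _ := by ring
    · have h1 : G = (1 + (z : ℂ) • (G * T x)) * H := by
        have h2 : G * T (c + z • x) = 1 + (z : ℂ) • (G * T x) := by
          rw [hTcz, mul_add, hG1, mul_smul_comm]
        rw [← h2, mul_assoc, hH2, mul_one]
      calc ‖G‖ = ‖(1 + (z : ℂ) • (G * T x)) * H‖ := by rw [← h1]
        _ ≤ ‖1 + (z : ℂ) • (G * T x)‖ * ‖H‖ := norm_mul_le _ _
        _ = _ := mul_comm _ _

end Pool.Agent.Helper280.SI
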