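import Mathlib

set_option autoImplicit false

namespace Pool.Agent.Helper280.SIA

open Filter Topology Set

theorem tc_pow_mul_le {B : Type*} [NormedRing B] (x y : B) (q : ℕ) :
    ‖x ^ q * y‖ ≤ ‖x‖ ^ q * ‖y‖ := by
  induction q with
  | zero => simp
  | succ q ih =>
    calc ‖x ^ (q + 1) * y‖ = ‖x * (x ^ q * y)‖ := by rw [pow_succ', mul_assoc]
      _ ≤ ‖x‖ * ‖x ^ q * y‖ := norm_mul_le _ _
      _ ≤ ‖x‖ * (‖x‖ ^ q * ‖y‖) := by gcongr
      _ = _ := by ring

theorem tc_local {B : Type*} [NormedRing B] [NormedAlgebra ℂ B] [CompleteSpace B]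
    {α : ℝ} (hα : 0 < α) (x₀ : B) (h : spectralRadius ℂ x₀ < ENNReal.ofReal α) :
    ∃ U ∈ 𝓝 x₀, ∃ C : ℝ, 0 < C ∧ ∀ x ∈ U, ∀ k : ℕ, ‖x ^ k‖ ≤ C * α ^ k := by
  have h1 := (spectrum.pow_norm_pow_one_div_tendsto_nhds_spectralRadius x₀).eventually_lt_const h
  obtain ⟨n, hn1, hn2⟩ := (h1.and (eventually_gt_atTop 0)).exists
  have hlt : ‖x₀ ^ n‖ < α ^ n := by
    have h2 : ‖x₀ ^ n‖ ^ (1 / n : ℝ) < α := (ENNReal.ofReal_lt_ofReal_iff hα).1 hn1
    have h3 : (‖x₀ ^ n‖ ^ (1 / n : ℝ)) ^ n < α ^ n :=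
      pow_lt_pow_left₀ h2 (by positivity) hn2.ne'
    rwa [one_div, Real.rpow_inv_natCast_pow (norm_nonneg _) hn2.ne'] at h3
  set M : ℝ := ‖x₀‖ + 1 with hM
  have hMpos : 0 < M := by positivity
  refine ⟨{x | ‖x ^ n‖ < α ^ n ∧ ‖x‖ < M}, ?_,
    (‖(1 : B)‖ + 1) * ∑ r ∈ Finset.range n, (M / α) ^ r, ?_, ?_⟩
  · refine IsOpen.mem_nhds ?_ ⟨hlt, by rw [hM]; linarith⟩
    have ho1 : IsOpen {x : B | ‖x ^ n‖ < α ^ n} :=
      isOpen_lt (continuous_pow n).norm continuous_const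
    have ho2 : IsOpen {x : B | ‖x‖ < M} := isOpen_lt continuous_norm continuous_const
    exact ho1.inter ho2
  · refine mul_pos (by positivity) (Finset.sum_pos (fun r _ => by positivity) ?_)
    exact ⟨0, Finset.mem_range.2 hn2⟩
  · rintro x ⟨hx1, hx2⟩ k
    have hk : k = n * (k / n) + k % n := (Nat.div_add_mod k n).symm
    set q := k / n
    set r := k % n
    have hr : r < n := Nat.mod_lt k hn2
    have hxr : ‖x ^ r‖ ≤ (‖(1 : B)‖ + 1) * M ^ r := by
      rcases Nat.eq_zero_or_pos r with h0 | h0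
      · rw [h0]
        simp
      · calc ‖x ^ r‖ ≤ ‖x‖ ^ r := norm_pow_le' x h0
          _ ≤ M ^ r := pow_le_pow_left₀ (norm_nonneg _) hx2.le _
          _ ≤ (‖(1 : B)‖ + 1) * M ^ r := by
            have : 0 ≤ ‖(1 : B)‖ * M ^ r := by positivity
            nlinarith
    have hsum : (M / α) ^ r ≤ ∑ r ∈ Finset.range n, (M / α) ^ r :=
      Finset.single_le_sum (f := fun r => (M / α) ^ r) (fun i _ => by positivity)
        (Finset.mem_range.2 hr)
    calc ‖x ^ k‖ = ‖(x ^ n) ^ q * x ^ r‖ := by rw [← pow_mul, ← pow_add, ← hk]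
      _ ≤ ‖x ^ n‖ ^ q * ‖x ^ r‖ := tc_pow_mul_le _ _ _
      _ ≤ (α ^ n) ^ q * ((‖(1 : B)‖ + 1) * M ^ r) := by gcongr
      _ = (‖(1 : B)‖ + 1) * (M / α) ^ r * α ^ k := by
          rw [hk, pow_add, pow_mul, div_pow]
          field_simp
      _ ≤ _ := by gcongr

theorem tc_uniform {B : Type*} [NormedRing B] [NormedAlgebra ℂ B] [CompleteSpace B]
    {α : ℝ} (hα : 0 < α) {S : Set B} (hS : IsCompact S)
    (h : ∀ x ∈ S, spectralRadius ℂ x < ENNReal.ofReal α) :
    ∃ C : ℝ, 0 < C ∧ ∀ x ∈ S, ∀ k : ℕ, ‖x ^ k‖ ≤ C * α ^ k := by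
  refine hS.induction_on (p := fun T : Set B =>
    ∃ C : ℝ, 0 < C ∧ ∀ x ∈ T, ∀ k : ℕ, ‖x ^ k‖ ≤ C * α ^ k) ?_ ?_ ?_ ?_
  · exact ⟨1, one_pos, fun x hx => absurd hx (notMem_empty x)⟩
  · rintro s t hst ⟨C, hC, h⟩
    exact ⟨C, hC, fun x hx => h x (hst hx)⟩
  · rintro s t ⟨C, hC, h⟩ ⟨C', hC', h'⟩
    refine ⟨C + C', add_pos hC hC', ?_⟩
    rintro x (hx | hx) k
    · refine (h x hx k).trans ?_
      have : 0 ≤ C' * α ^ k := by positivity
      nlinarith
    · refine (h' x hx k).trans ?_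
      have : 0 ≤ C * α ^ k := by positivity
      nlinarith
  · intro x hx
    obtain ⟨U, hU, C, hC, hb⟩ := tc_local hα x (h x hx)
    exact ⟨U, mem_nhdsWithin_of_mem_nhds hU, C, hC, hb⟩

/-- TARGET: three circles theorem for the spectral radius along a complex line. -/
theorem three_circles {B : Type*} [NormedRing B] [NormedAlgebra ℂ B] [CompleteSpace B]
    (a d : B) (R α β : ℝ) (hR : 1 < R) (hα0 : 0 < α) (hβ0 : 0 < β)
    (hα : ∀ z : ℂ, ‖z‖ = R → spectralRadius ℂ (a + z • d) < ENNReal.ofReal α)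
    (hβ : ∀ z : ℂ, ‖z‖ = R⁻¹ → spectralRadius ℂ (a + z • d) < ENNReal.ofReal β) :
    spectralRadius ℂ (a + d) ≤ ENNReal.ofReal (Real.sqrt (α * β)) := by
  have hR0 : 0 < R := one_pos.trans hR
  have hcont : Continuous fun z : ℂ => a + z • d := by fun_prop
  obtain ⟨C₁, hC₁, h1⟩ := tc_uniform hα0 ((isCompact_sphere (0 : ℂ) R).image hcont) (by
    rintro _ ⟨z, hz, rfl⟩
    exact hα z (by simpa using hz))
  obtain ⟨C₀, hC₀, h0⟩ := tc_uniform hβ0 ((isCompact_sphere (0 : ℂ) R⁻¹).image hcont) (by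
    rintro _ ⟨z, hz, rfl⟩
    exact hβ z (by simpa using hz))
  have hmain : ∀ k : ℕ, 0 < k →
      ‖(a + d) ^ k‖ ≤ (C₀ * β ^ k) ^ (1 / 2 : ℝ) * (C₁ * α ^ k) ^ (1 / 2 : ℝ) := by
    intro k hk
    set f : ℂ → B := fun w => (a + Complex.exp (w * Real.log R) • d) ^ k with hf
    have hexpn : ∀ w : ℂ, ‖Complex.exp (w * Real.log R)‖ = Real.exp (w.re * Real.log R) := by
      intro w
      rw [Complex.norm_exp]
      simp
    have hdiff : Differentiable ℂ f := by
      rw [hf]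
      fun_prop
    have hB : BddAbove ((norm ∘ f) '' Complex.HadamardThreeLines.verticalClosedStrip (-1) 1) := by
      refine ⟨(‖a‖ + R * ‖d‖) ^ k, ?_⟩
      rintro _ ⟨w, hw, rfl⟩
      have hw' : w.re ≤ 1 := hw.2
      have h2 : ‖Complex.exp (w * Real.log R)‖ ≤ R := by
        rw [hexpn]
        calc Real.exp (w.re * Real.log R) ≤ Real.exp (1 * Real.log R) := by
              have := Real.log_pos hR
              gcongr
          _ = R := by rw [one_mul, Real.exp_log hR0]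
      simp only [Function.comp, hf]
      refine (norm_pow_le' _ hk).trans (pow_le_pow_left₀ (norm_nonneg _) ?_ _)
      refine (norm_add_le _ _).trans ?_
      rw [norm_smul]
      gcongr
    have key := Complex.HadamardThreeLines.norm_le_interp_of_mem_verticalClosedStrip'
      (f := f) (z := 0) (a := C₀ * β ^ k) (b := C₁ * α ^ k) (l := -1) (u := 1) (by norm_num)
      (by
        rw [Complex.HadamardThreeLines.verticalClosedStrip]
        simp) hdiff.diffContOnCl hB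
      (by
        intro w hw
        have hw' : w.re = -1 := hw
        refine h0 _ ⟨Complex.exp (w * Real.log R), ?_, rfl⟩ k
        rw [mem_sphere_zero_iff_norm, hexpn, hw', neg_mul, one_mul, Real.exp_neg,
          Real.exp_log hR0])
      (by
        intro w hw
        have hw' : w.re = 1 := hw
        refine h1 _ ⟨Complex.exp (w * Real.log R), ?_, rfl⟩ k
        rw [mem_sphere_zero_iff_norm, hexpn, hw', one_mul, Real.exp_log hR0])
    have hf0 : f 0 = (a + d) ^ k := by simp [hf]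
    rw [hf0] at key
    convert key using 3 <;> norm_num
  have hlim1 := spectrum.pow_norm_pow_one_div_tendsto_nhds_spectralRadius (a + d)
  set D : ℝ := (C₀ * C₁) ^ (1 / 2 : ℝ) with hD
  have hDpos : 0 < D := by positivity
  have hlim2 : Tendsto (fun k : ℕ => ENNReal.ofReal (D ^ (1 / k : ℝ) * Real.sqrt (α * β))) atTop
      (𝓝 (ENNReal.ofReal (Real.sqrt (α * β)))) := by
    refine ENNReal.tendsto_ofReal ?_
    have h3 : Tendsto (fun k : ℕ => D ^ (1 / k : ℝ)) atTop (𝓝 (D ^ (0 : ℝ))) :=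
      (tendsto_const_nhds (x := D)).rpow tendsto_one_div_atTop_nhds_zero_nat (Or.inl hDpos.ne')
    rw [Real.rpow_zero] at h3
    simpa using h3.mul_const (Real.sqrt (α * β))
  refine le_of_tendsto_of_tendsto hlim1 hlim2 ?_
  filter_upwards [eventually_gt_atTop 0] with k hk
  refine ENNReal.ofReal_le_ofReal ?_
  have hk' : (k : ℝ) ≠ 0 := by exact_mod_cast hk.ne'
  have h4 : (C₀ * β ^ k) ^ (1 / 2 : ℝ) * (C₁ * α ^ k) ^ (1 / 2 : ℝ) =
      D * (Real.sqrt (α * β)) ^ k := by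
    rw [Real.sqrt_eq_rpow, hD, ← Real.mul_rpow (by positivity) (by positivity),
      ← Real.rpow_natCast ((α * β) ^ (1 / 2 : ℝ)), ← Real.rpow_mul (by positivity),
      mul_comm (1 / 2 : ℝ) (k : ℝ), Real.rpow_mul (by positivity), Real.rpow_natCast,
      ← Real.mul_rpow (by positivity) (by positivity)]
    congr 1
    rw [mul_pow]
    ring
  calc ‖(a + d) ^ k‖ ^ (1 / k : ℝ) ≤ (D * (Real.sqrt (α * β)) ^ k) ^ (1 / k : ℝ) := by
        refine Real.rpow_le_rpow (norm_nonneg _) ?_ (by positivity)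
        rw [← h4]
        exact hmain k hk
    _ = D ^ (1 / k : ℝ) * Real.sqrt (α * β) := by
        rw [Real.mul_rpow hDpos.le (by positivity), one_div,
          Real.pow_rpow_inv_natCast (Real.sqrt_nonneg _) hk.ne']

end Pool.Agent.Helper280.SIA
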