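import Mathlib

set_option autoImplicit false

namespace Pool.Agent.Helper280.SIB

open Filter Topology

theorem sr_le {B : Type*} [CStarAlgebra B] (x : B) :
    spectralRadius ℂ x ≤ ENNReal.ofReal ‖x‖ := by
  rcases subsingleton_or_nontrivial B with h | h
  · have : spectrum ℂ x = ∅ := spectrum.of_subsingleton x
    simp [spectralRadius, this]
  · have := spectrum.spectralRadius_le_nnnorm (𝕜 := ℂ) x
    refine this.trans (le_of_eq ?_)
    rw [ofReal_norm_eq_enorm]; rfl

theorem sr_star {B : Type*} [CStarAlgebra B] (x : B) :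
    spectralRadius ℂ (star x) = spectralRadius ℂ x := by
  have h : ∀ y : B, spectralRadius ℂ (star y) ≤ spectralRadius ℂ y := by
    intro y
    refine iSup₂_le fun k hk => ?_
    rw [spectrum.map_star] at hk
    have h2 : star k ∈ spectrum ℂ y := by simpa using hk
    have := le_iSup₂ (f := fun (k : ℂ) (_ : k ∈ spectrum ℂ y) => (‖k‖₊ : ENNReal)) (star k) h2
    simpa [spectralRadius] using this
  refine le_antisymm (h x) ?_
  have := h (star x)
  simpa using this

theorem sr_neg {B : Type*} [CStarAlgebra B] (x : B) :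
    spectralRadius ℂ (-x) = spectralRadius ℂ x := by
  have h : ∀ y : B, spectralRadius ℂ (-y) ≤ spectralRadius ℂ y := by
    intro y
    refine iSup₂_le fun k hk => ?_
    rw [← spectrum.neg_eq] at hk
    have h2 : -k ∈ spectrum ℂ y := by simpa using hk
    have := le_iSup₂ (f := fun (k : ℂ) (_ : k ∈ spectrum ℂ y) => (‖k‖₊ : ENNReal)) (-k) h2
    simpa [spectralRadius] using this
  refine le_antisymm (h x) ?_
  have := h (-x)
  simpa using this

theorem key {B : Type*} [CStarAlgebra B] (y : B)
    (h : ∀ b : B, spectralRadius ℂ b = 0 → spectralRadius ℂ (b + y) = 0) : y = 0 := by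
  have h0 : spectralRadius ℂ y = 0 := by simpa using h 0 (by simp)
  have h1 : spectralRadius ℂ (star y + y) = 0 := h _ (by rw [sr_star, h0])
  have h2 : spectralRadius ℂ (-star y + y) = 0 := h _ (by rw [sr_neg, sr_star, h0])
  have s1 : IsSelfAdjoint (star y + y) := by
    rw [isSelfAdjoint_iff]; simp [add_comm]
  have e1 : star y + y = 0 := by
    have := s1.spectralRadius_eq_nnnorm
    rw [h1] at this
    simpa using this.symm
  have hst : star y = -y := eq_neg_of_add_eq_zero_left e1
  have s2 : IsStarNormal (-star y + y) := by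
    refine ⟨?_⟩
    rw [hst]
    simp [hst]
  have e2 : -star y + y = 0 := by
    have := s2.spectralRadius_eq_nnnorm
    rw [h2] at this
    simpa using this.symm
  rw [hst, neg_neg] at e2
  have : (2 : ℂ) • y = 0 := by rw [two_smul, e2]
  simpa using this

theorem small {B : Type*} [CStarAlgebra B] (b : B) (hb : spectralRadius ℂ b = 0) (η : ℝ)
    (hη : 0 < η) : ∃ ρ : ℝ, 0 < ρ ∧ ∀ x : B, ‖x - b‖ < ρ →
      spectralRadius ℂ x < ENNReal.ofReal η := by
  have hg := spectrum.pow_norm_pow_one_div_tendsto_nhds_spectralRadius b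
  rw [hb] at hg
  have hpos : (0 : ENNReal) < ENNReal.ofReal (η / 2) := by
    rw [ENNReal.ofReal_pos]; linarith
  obtain ⟨n, hn, hn1⟩ := ((hg.eventually (gt_mem_nhds hpos)).and (eventually_ge_atTop 1)).exists
  have hn0 : n ≠ 0 := by omega
  have hlt : ‖b ^ n‖ ^ (1 / n : ℝ) < η / 2 := by
    exact (ENNReal.ofReal_lt_ofReal_iff (by linarith)).1 hn
  have hlt2 : ‖b ^ n‖ < (η / 2) ^ n := by
    have h1 : (‖b ^ n‖ ^ (1 / n : ℝ)) ^ n < (η / 2) ^ n :=
      pow_lt_pow_left₀ hlt (Real.rpow_nonneg (norm_nonneg _) _) hn0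
    rwa [← Real.rpow_natCast, ← Real.rpow_mul (norm_nonneg _), one_div,
      inv_mul_cancel₀ (by exact_mod_cast hn0), Real.rpow_one] at h1
  have hcont : Continuous fun x : B => ‖x ^ n‖ := (continuous_pow n).norm
  have hev : ∀ᶠ x in 𝓝 b, ‖x ^ n‖ < (η / 2) ^ n :=
    hcont.continuousAt.eventually (gt_mem_nhds hlt2)
  obtain ⟨ρ, hρ, hball⟩ := Metric.eventually_nhds_iff.1 hev
  refine ⟨ρ, hρ, fun x hx => ?_⟩
  have hx' := hball (y := x) (by rwa [dist_eq_norm])
  have h3 : (spectralRadius ℂ x) ^ n ≤ (ENNReal.ofReal (η / 2)) ^ n := by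
    calc (spectralRadius ℂ x) ^ n ≤ spectralRadius ℂ (x ^ n) :=
          spectrum.spectralRadius_pow_le x n hn0
      _ ≤ ENNReal.ofReal ‖x ^ n‖ := sr_le _
      _ ≤ ENNReal.ofReal ((η / 2) ^ n) := ENNReal.ofReal_le_ofReal hx'.le
      _ = (ENNReal.ofReal (η / 2)) ^ n := ENNReal.ofReal_pow (by linarith) n
  have h4 : spectralRadius ℂ x ≤ ENNReal.ofReal (η / 2) :=
    (ENNReal.pow_right_strictMono hn0).le_iff_le.1 h3
  refine h4.trans_lt ((ENNReal.ofReal_lt_ofReal_iff hη).2 (by linarith))

/-- TARGET: a surjective unital spectral isometry between C*-algebras is injective and continuous.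
`three` is the three circles theorem (proved elsewhere), use it as a hypothesis. -/
theorem inj_and_continuous {A B : Type*} [CStarAlgebra A] [CStarAlgebra B] (T : A →ₗ[ℂ] B)
    (three : ∀ (a d : B) (R α β : ℝ), 1 < R → 0 < α → 0 < β →
      (∀ z : ℂ, ‖z‖ = R → spectralRadius ℂ (a + z • d) < ENNReal.ofReal α) →
      (∀ z : ℂ, ‖z‖ = R⁻¹ → spectralRadius ℂ (a + z • d) < ENNReal.ofReal β) →
      spectralRadius ℂ (a + d) ≤ ENNReal.ofReal (Real.sqrt (α * β)))
    (hs : Function.Surjective T)
    (hr : ∀ a, spectralRadius ℂ (T a) = spectralRadius ℂ a) :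
    Function.Injective T ∧ Continuous T := by
  constructor
  · rw [injective_iff_map_eq_zero]
    intro k hk
    refine key k fun b hb => ?_
    rw [← hr, map_add, hk, add_zero, hr, hb]
  · refine T.continuous_of_seq_closed_graph fun u x y hu hTu => ?_
    -- reduce to zero
    set v : ℕ → A := fun n => u n - x with hv
    have hv0 : Tendsto v atTop (𝓝 0) := by
      have := hu.sub_const x
      simpa using this
    set w : B := y - T x with hw
    have hTv : Tendsto (fun n => T (v n)) atTop (𝓝 w) := by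
      have := hTu.sub_const (T x)
      refine this.congr fun n => ?_
      simp [hv]
    suffices hw0 : w = 0 by
      rw [hw] at hw0
      exact sub_eq_zero.1 hw0
    refine key w fun b hb => ?_
    obtain ⟨z, hz⟩ := hs (b + w)
    have main : ∀ η : ℝ, 0 < η →
        spectralRadius ℂ (b + w) ≤ ENNReal.ofReal (Real.sqrt ((‖z‖ + 2) * η)) := by
      intro η hη
      obtain ⟨ρ, hρ, hsm⟩ := small b hb η hη
      obtain ⟨R, hR1, hR2⟩ : ∃ R : ℝ, 1 < R ∧ (‖w‖ + 1) * R⁻¹ < ρ / 2 := by
        refine ⟨max 2 ((‖w‖ + 1) / (ρ / 2) + 1), lt_max_of_lt_left (by norm_num), ?_⟩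
        have hp : 0 < max 2 ((‖w‖ + 1) / (ρ / 2) + 1) := lt_max_of_lt_left (by norm_num)
        rw [← div_eq_mul_inv, div_lt_iff₀ hp]
        have h1 : (‖w‖ + 1) / (ρ / 2) < max 2 ((‖w‖ + 1) / (ρ / 2) + 1) :=
          lt_max_of_lt_right (by linarith)
        rw [div_lt_iff₀ (by linarith)] at h1
        linarith
      have hRpos : 0 < R := by linarith
      have e1 : ∀ᶠ n in atTop, ‖T (v n) - w‖ < ρ / 2 := by
        have := (tendsto_iff_norm_sub_tendsto_zero.1 hTv).eventually
          (gt_mem_nhds (show (0 : ℝ) < ρ / 2 by linarith))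
        exact this
      have e2 : ∀ᶠ n in atTop, ‖T (v n)‖ < ‖w‖ + 1 := by
        exact hTv.norm.eventually (gt_mem_nhds (by linarith))
      have e3 : ∀ᶠ n in atTop, ‖v n‖ < 1 / (R + 1) := by
        have h := hv0.norm
        rw [norm_zero] at h
        exact h.eventually (gt_mem_nhds (by positivity))
      obtain ⟨n, hn1, hn2, hn3⟩ := (e1.and (e2.and e3)).exists
      have hres := three (b + w - T (v n)) (T (v n)) R (‖z‖ + 2) η hR1 (by positivity) hη ?_ ?_
      · simpa using hres
      · intro c hc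
        have heq : b + w - T (v n) + c • T (v n) = T (z + (c - 1) • v n) := by
          rw [map_add, map_smul, hz]
          rw [sub_smul, one_smul]; abel
        rw [heq, hr]
        refine (sr_le _).trans_lt ?_
        rw [ENNReal.ofReal_lt_ofReal_iff (by positivity)]
        have hb1 : ‖(c - 1) • v n‖ ≤ (R + 1) * ‖v n‖ := by
          rw [norm_smul]
          refine mul_le_mul_of_nonneg_right ?_ (norm_nonneg _)
          calc ‖c - 1‖ ≤ ‖c‖ + ‖(1 : ℂ)‖ := norm_sub_le _ _
            _ = R + 1 := by rw [hc]; simp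
        have hb2 : (R + 1) * ‖v n‖ < 1 := by
          rw [lt_div_iff₀ (by positivity)] at hn3
          linarith
        calc ‖z + (c - 1) • v n‖ ≤ ‖z‖ + ‖(c - 1) • v n‖ := norm_add_le _ _
          _ < ‖z‖ + 2 := by linarith
      · intro c hc
        refine hsm _ ?_
        have heq : b + w - T (v n) + c • T (v n) - b = -(T (v n) - w) + c • T (v n) := by abel
        rw [heq]
        calc ‖-(T (v n) - w) + c • T (v n)‖ ≤ ‖-(T (v n) - w)‖ + ‖c • T (v n)‖ := norm_add_le _ _
          _ = ‖T (v n) - w‖ + R⁻¹ * ‖T (v n)‖ := by rw [norm_neg, norm_smul, hc]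
          _ < ρ := by
            have h5 : R⁻¹ * ‖T (v n)‖ ≤ R⁻¹ * (‖w‖ + 1) :=
              mul_le_mul_of_nonneg_left hn2.le (by positivity)
            linarith [mul_comm (R⁻¹) (‖w‖ + 1)]
    -- let η → 0
    have hlim : Tendsto (fun η : ℝ => ENNReal.ofReal (Real.sqrt ((‖z‖ + 2) * η))) (𝓝[>] 0)
        (𝓝 0) := by
      have hc : Continuous fun η : ℝ => ENNReal.ofReal (Real.sqrt ((‖z‖ + 2) * η)) :=
        ENNReal.continuous_ofReal.comp (Real.continuous_sqrt.comp (continuous_const.mul continuous_id))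
      have h1 := (hc.tendsto 0).mono_left (nhdsWithin_le_nhds (s := Set.Ioi (0 : ℝ)))
      simpa using h1
    refine le_antisymm ?_ bot_le
    refine ge_of_tendsto hlim ?_
    filter_upwards [self_mem_nhdsWithin] with η hη
    exact main η hη

end Pool.Agent.Helper280.SIB
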