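import Mathlib

set_option autoImplicit false

namespace Pool.Agent.Helper280.SIC1

/-- hat function -/
noncomputable def hat (x : ℝ) : ℝ := max 0 (1 - |x|)

theorem hat_cont : Continuous hat := by unfold hat; fun_prop
theorem hat_nonneg (x : ℝ) : 0 ≤ hat x := le_max_left _ _
theorem hat_zero {x : ℝ} (h : 1 ≤ |x|) : hat x = 0 := by
  unfold hat; rw [max_eq_left]; linarith
theorem hat_pos_val {x : ℝ} (h0 : 0 ≤ x) (h1 : x ≤ 1) : hat x = 1 - x := by
  unfold hat; rw [abs_of_nonneg h0, max_eq_right]; linarith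
theorem hat_neg_val {x : ℝ} (h0 : -1 ≤ x) (h1 : x ≤ 0) : hat x = 1 + x := by
  unfold hat; rw [abs_of_nonpos h1, max_eq_right] <;> linarith

/-- only two integer shifts see `x` -/
theorem hat_other {m : ℤ} {x : ℝ} (h0 : (m : ℝ) ≤ x) (h1 : x ≤ m + 1) {i : ℤ} (hi : i ≠ m) (hi2 : i ≠ m + 1) :
    hat (x - i) = 0 := by
  apply hat_zero
  rcases lt_or_gt_of_ne hi with h | h
  · have : i + 1 ≤ m := h
    have h2 : (i : ℝ) + 1 ≤ m := by exact_mod_cast this
    rw [abs_of_nonneg (by linarith)]; linarith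
  · have : m + 2 ≤ i := by omega
    have h2 : (m : ℝ) + 2 ≤ i := by exact_mod_cast this
    rw [abs_of_nonpos (by linarith)]; linarith

theorem hat_sum {m : ℤ} {x : ℝ} (h0 : (m : ℝ) ≤ x) (h1 : x ≤ m + 1) (S : Finset ℤ) (hm : m ∈ S) (hm1 : m + 1 ∈ S)
    (F : ℤ → ℝ) : ∑ i ∈ S, F i * hat (x - i) = F m * (1 - (x - m)) + F (m + 1) * (x - m) := by
  have hsub : ({m, m + 1} : Finset ℤ) ⊆ S := by
    intro i hi
    rw [Finset.mem_insert, Finset.mem_singleton] at hi
    rcases hi with rfl | rfl <;> assumption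
  rw [← Finset.sum_subset hsub]
  · rw [Finset.sum_pair (by omega), hat_pos_val (by linarith) (by linarith)]
    push_cast
    rw [hat_neg_val (by linarith) (by linarith)]
    ring
  · intro i _ hi
    rw [Finset.mem_insert, Finset.mem_singleton, not_or] at hi
    rw [hat_other h0 h1 hi.1 hi.2, mul_zero]

theorem hat_sum_le (x : ℝ) (S : Finset ℤ) : ∑ i ∈ S, hat (x - i) ≤ 1 := by
  have h0 : ((⌊x⌋ : ℤ) : ℝ) ≤ x := Int.floor_le x
  have h1 : x ≤ ⌊x⌋ + 1 := (Int.lt_floor_add_one x).le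
  have h2 := hat_sum h0 h1 (S ∪ {⌊x⌋, ⌊x⌋ + 1}) (by simp) (by simp) (fun _ => 1)
  simp only [one_mul] at h2
  have h3 : ∑ i ∈ S, hat (x - i) ≤ ∑ i ∈ S ∪ {⌊x⌋, ⌊x⌋ + 1}, hat (x - i) :=
    Finset.sum_le_sum_of_subset_of_nonneg Finset.subset_union_left (fun i _ _ => hat_nonneg _)
  rw [h2] at h3
  linarith

theorem hat_sum_shift_le (x : ℝ) (c : ℤ) (S : Finset ℤ) : ∑ i ∈ S, hat (x - i + c) ≤ 1 := by
  have := hat_sum_le (x + c) S
  refine le_trans (le_of_eq ?_) this
  apply Finset.sum_congr rfl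
  intro i _
  congr 1; ring

/-- sum of three neighbouring hats -/
noncomputable def psi (x : ℝ) : ℝ := hat (x - 1) + hat x + hat (x + 1)

theorem psi_cont : Continuous psi := by
  unfold psi
  have := hat_cont
  fun_prop

theorem psi_nonneg (x : ℝ) : 0 ≤ psi x := add_nonneg (add_nonneg (hat_nonneg _) (hat_nonneg _)) (hat_nonneg _)

theorem hat_psi (x : ℝ) : hat x * (1 - psi x) = 0 := by
  unfold psi
  rcases le_total x (-1) with h | h
  · rw [hat_zero (x := x) (by rw [abs_of_nonpos (by linarith)]; linarith), zero_mul]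
  rcases le_total 1 x with h' | h'
  · rw [hat_zero (x := x) (by rw [abs_of_nonneg (by linarith)]; linarith), zero_mul]
  rcases le_total x 0 with h0 | h0
  · rw [hat_neg_val h h0, hat_zero (x := x - 1) (by rw [abs_of_nonpos (by linarith)]; linarith), hat_pos_val (x := x + 1) (by linarith) (by linarith)]
    ring
  · rw [hat_pos_val h0 h', hat_zero (x := x + 1) (by rw [abs_of_nonneg (by linarith)]; linarith), hat_neg_val (x := x - 1) (by linarith) (by linarith)]
    ring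

theorem psi_supp (x : ℝ) : |x| * psi x ≤ 2 * psi x := by
  rcases le_total |x| 2 with h | h
  · exact mul_le_mul_of_nonneg_right h (psi_nonneg x)
  · have : psi x = 0 := by
      unfold psi
      rcases le_total 0 x with h0 | h0
      · rw [abs_of_nonneg h0] at h
        rw [hat_zero (by rw [abs_of_nonneg (by linarith)]; linarith), hat_zero (by rw [abs_of_nonneg (by linarith)]; linarith), hat_zero (by rw [abs_of_nonneg (by linarith)]; linarith)]
        ring
      · rw [abs_of_nonpos h0] at h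
        rw [hat_zero (by rw [abs_of_nonpos (by linarith)]; linarith), hat_zero (by rw [abs_of_nonpos (by linarith)]; linarith), hat_zero (by rw [abs_of_nonpos (by linarith)]; linarith)]
        ring
    rw [this]; simp

theorem psi_sum_le (x : ℝ) (S : Finset ℤ) : ∑ i ∈ S, psi (x - i) ≤ 3 := by
  unfold psi
  rw [Finset.sum_add_distrib, Finset.sum_add_distrib]
  have h1 := hat_sum_le x S
  have h2 := hat_sum_shift_le x (-1) S
  have h3 := hat_sum_shift_le x 1 S
  push_cast at h2 h3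
  have e : ∑ i ∈ S, hat (x - i - 1) = ∑ i ∈ S, hat (x - i + -1) := by
    apply Finset.sum_congr rfl; intro i _; congr 1
  rw [e]
  linarith

/-- the facts at a point of the spectrum -/
theorem point_facts {N : ℤ} (hN : 1 ≤ N) {x : ℝ} (hx : |x| ≤ N) :
    (∑ i ∈ Finset.Icc (-N) N, hat (x - i) = 1) ∧ (∑ i ∈ Finset.Icc (-N) N, (i : ℝ) * hat (x - i) = x) ∧
    (|x ^ 2 - ∑ i ∈ Finset.Icc (-N) N, (i : ℝ) ^ 2 * hat (x - i)| ≤ 1) ∧
    (∑ i ∈ Finset.Icc (-N) N, |(i : ℝ)| * hat (x - i) = |x|) := by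
  obtain ⟨hx1, hx2⟩ := abs_le.mp hx
  have hf1 := Int.floor_le x
  have hf2 := Int.lt_floor_add_one x
  obtain ⟨m, hm0, hm1, hm2, hm3⟩ : ∃ m : ℤ, (m : ℝ) ≤ x ∧ x ≤ m + 1 ∧ -N ≤ m ∧ m + 1 ≤ N := by
    have hfl : -N ≤ ⌊x⌋ := by
      rw [Int.le_floor]; push_cast; exact hx1
    rcases le_or_gt (⌊x⌋ + 1) N with h | h
    · exact ⟨⌊x⌋, hf1, hf2.le, hfl, h⟩
    · have h2 : N ≤ ⌊x⌋ := by omega
      have h3 : (N : ℝ) ≤ ⌊x⌋ := by exact_mod_cast h2
      refine ⟨N - 1, ?_, ?_, by omega, by omega⟩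
      · push_cast; linarith
      · push_cast; linarith
  have hmS : m ∈ Finset.Icc (-N) N := Finset.mem_Icc.mpr ⟨hm2, by omega⟩
  have hmS1 : m + 1 ∈ Finset.Icc (-N) N := Finset.mem_Icc.mpr ⟨by omega, hm3⟩
  refine ⟨?_, ?_, ?_, ?_⟩
  · have := hat_sum hm0 hm1 _ hmS hmS1 (fun _ => 1)
    simp only [one_mul] at this
    rw [this]; ring
  · rw [hat_sum hm0 hm1 _ hmS hmS1 (fun i => (i : ℝ))]
    push_cast; ring
  · rw [hat_sum hm0 hm1 _ hmS hmS1 (fun i => (i : ℝ) ^ 2)]
    push_cast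
    have e : x ^ 2 - ((m : ℝ) ^ 2 * (1 - (x - m)) + ((m : ℝ) + 1) ^ 2 * (x - m)) = -((x - m) * (1 - (x - m))) := by ring
    rw [e, abs_neg, abs_of_nonneg (mul_nonneg (by linarith) (by linarith))]
    nlinarith
  · rw [hat_sum hm0 hm1 _ hmS hmS1 (fun i => |(i : ℝ)|)]
    push_cast
    rcases le_or_gt 0 m with h | h
    · have h2 : (0:ℝ) ≤ m := by exact_mod_cast h
      rw [abs_of_nonneg h2, abs_of_nonneg (by linarith : (0:ℝ) ≤ m + 1), abs_of_nonneg (by linarith)]
      ring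
    · have h2 : (m : ℝ) + 1 ≤ 0 := by exact_mod_cast h
      rw [abs_of_nonpos (by linarith : (m : ℝ) ≤ 0), abs_of_nonpos h2, abs_of_nonpos (by linarith)]
      ring

section cfcpart
variable {A : Type*} [CStarAlgebra A] [PartialOrder A] [StarOrderedRing A]

theorem cfc_lin {ι : Type*} [Fintype ι] (y : A) (a : ι → ℝ) (f : ι → ℝ → ℝ) (hf : ∀ i, Continuous (f i)) :
    ∑ i, a i • cfc (f i) y = cfc (fun t => ∑ i, a i * f i t) y := by
  have h1 : ∀ i, a i • cfc (f i) y = cfc (fun t => a i * f i t) y := fun i =>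
    (cfc_const_mul (a i) (f i) y (hf i).continuousOn).symm
  simp_rw [h1]
  rw [← cfc_sum_univ (fun i t => a i * f i t) y (fun i => (continuous_const.mul (hf i)).continuousOn)]
  congr 1
  funext t
  simp

theorem core [Nontrivial A] (y : A) (hy : IsSelfAdjoint y) (ε : ℝ) (hε : 0 < ε) :
    ∃ (ι : Type) (_ : Fintype ι) (s : ι → ℝ) (u v : ι → A),
      (∀ j, 0 ≤ u j) ∧ (∀ j, IsSelfAdjoint (v j)) ∧ (∀ j, u j * (1 - v j) = 0) ∧
      (∀ j, Commute y (v j)) ∧ (∑ j, u j = 1) ∧ (∑ j, s j • u j = y) ∧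
      ‖y * y - ∑ j, (s j) ^ 2 • u j‖ ≤ ε ∧
      (∀ e : ι → ℝ, (∀ j, |e j| ≤ 1) →
        ‖∑ j, e j • u j‖ ≤ 1 ∧ ‖∑ j, (e j * s j) • u j‖ ≤ ‖y‖ + 1 ∧
        ‖∑ j, e j • ((algebraMap ℝ A (s j) - y) * v j)‖ ≤ ε) := by
  obtain ⟨δ, hδ0, hδ1, hδ6⟩ : ∃ δ : ℝ, 0 < δ ∧ δ ≤ 1 ∧ 6 * δ ≤ ε := by
    refine ⟨min 1 (ε / 6), by positivity, min_le_left _ _, ?_⟩
    have := min_le_right (1:ℝ) (ε / 6)
    linarith
  obtain ⟨N0, hN0⟩ := exists_nat_gt (‖y‖ / δ)
  let N : ℤ := (N0 : ℤ) + 1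
  have hN1 : 1 ≤ N := by omega
  have hNr : ‖y‖ ≤ N * δ := by
    rw [div_lt_iff₀ hδ0] at hN0
    have : (N : ℝ) = N0 + 1 := by push_cast [N]; ring
    rw [this]
    nlinarith
  have hspec : ∀ t ∈ spectrum ℝ y, |t / δ| ≤ N := by
    intro t ht
    have h1 : ‖t‖ ≤ ‖y‖ := spectrum.norm_le_norm_of_mem ht
    rw [Real.norm_eq_abs] at h1
    rw [abs_div, abs_of_pos hδ0, div_le_iff₀ hδ0]
    linarith
  have hspec' : ∀ t ∈ spectrum ℝ y, |t| ≤ ‖y‖ := by
    intro t ht
    have h1 : ‖t‖ ≤ ‖y‖ := spectrum.norm_le_norm_of_mem ht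
    rwa [Real.norm_eq_abs] at h1
  let S : Finset ℤ := Finset.Icc (-N) N
  let φ : S → ℝ → ℝ := fun i t => hat (t / δ - (i : ℤ))
  let ψ : S → ℝ → ℝ := fun i t => psi (t / δ - (i : ℤ))
  have hφc : ∀ i, Continuous (φ i) := fun i => hat_cont.comp (by fun_prop)
  have hψc : ∀ i, Continuous (ψ i) := fun i => psi_cont.comp (by fun_prop)
  have hsumS : ∀ F : ℤ → ℝ, ∑ i : S, F i = ∑ i ∈ S, F i := fun F => Finset.sum_coe_sort S F
  refine ⟨S, inferInstance, fun i => ((i : ℤ) : ℝ) * δ, fun i => cfc (φ i) y, fun i => cfc (ψ i) y, ?_, ?_, ?_, ?_, ?_, ?_, ?_, ?_⟩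
  · intro i
    exact cfc_nonneg (fun t _ => hat_nonneg _)
  · intro i
    exact cfc_predicate _ _
  · intro i
    have h1 : (1 : A) - cfc (ψ i) y = cfc (fun t => 1 - ψ i t) y := by
      rw [cfc_sub (fun _ => (1:ℝ)) (ψ i) y continuous_const.continuousOn (hψc i).continuousOn, cfc_const_one ℝ y]
    rw [h1, ← cfc_mul (φ i) (fun t => 1 - ψ i t) y (hφc i).continuousOn (continuous_const.sub (hψc i)).continuousOn]
    have h2 : (fun t => φ i t * (1 - ψ i t)) = fun _ => (0:ℝ) := by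
      funext t; exact hat_psi _
    rw [h2, cfc_const_zero]
  · intro i
    have := cfc_commute_cfc (id : ℝ → ℝ) (ψ i) y
    rwa [cfc_id ℝ y] at this
  · have h1 := cfc_lin y (fun _ : S => (1:ℝ)) φ hφc
    simp only [one_smul, one_mul] at h1
    rw [h1]
    rw [show (1 : A) = cfc (fun _ => (1:ℝ)) y from (cfc_const_one ℝ y).symm]
    apply cfc_congr
    intro t ht
    simp only
    exact (hsumS (fun i => hat (t / δ - i))).trans (point_facts hN1 (hspec t ht)).1
  · rw [cfc_lin y (fun i : S => ((i : ℤ) : ℝ) * δ) φ hφc]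
    conv_rhs => rw [← cfc_id ℝ y]
    apply cfc_congr
    intro t ht
    simp only [id]
    have h1 := (point_facts hN1 (hspec t ht)).2.1
    have h2 := hsumS (fun i => (i : ℝ) * hat (t / δ - i))
    calc ∑ i : S, ((i : ℤ) : ℝ) * δ * φ i t = δ * ∑ i : S, ((i : ℤ) : ℝ) * hat (t / δ - (i : ℤ)) := by
          rw [Finset.mul_sum]; apply Finset.sum_congr rfl; intro i _; simp only [φ]; ring
      _ = δ * (t / δ) := by rw [h2, h1]
      _ = t := by field_simp
  · rw [cfc_lin y (fun i : S => (((i : ℤ) : ℝ) * δ) ^ 2) φ hφc]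
    have hyy : y * y = cfc (fun t : ℝ => t * t) y := by
      rw [cfc_mul (fun t : ℝ => t) (fun t : ℝ => t) y continuous_id.continuousOn continuous_id.continuousOn, cfc_id' ℝ y]
    rw [hyy, ← cfc_sub (fun t : ℝ => t * t) _ y (by fun_prop) (Continuous.continuousOn (by
      apply continuous_finsetSum
      intro i _
      exact continuous_const.mul (hφc i)))]
    apply norm_cfc_le hε.le
    intro t ht
    rw [Real.norm_eq_abs]
    have h1 := (point_facts hN1 (hspec t ht)).2.2.1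
    have h2 := hsumS (fun i => (i : ℝ) ^ 2 * hat (t / δ - i))
    have h3 : t * t - ∑ i : S, (((i : ℤ) : ℝ) * δ) ^ 2 * φ i t = δ ^ 2 * ((t / δ) ^ 2 - ∑ i ∈ S, (i : ℝ) ^ 2 * hat (t / δ - i)) := by
      rw [← h2, mul_sub, Finset.mul_sum]
      congr 1
      · field_simp
      · apply Finset.sum_congr rfl; intro i _; simp only [φ]; ring
    rw [h3, abs_mul, abs_of_pos (by positivity)]
    calc δ ^ 2 * |(t / δ) ^ 2 - ∑ i ∈ S, (i : ℝ) ^ 2 * hat (t / δ - i)| ≤ δ ^ 2 * 1 :=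
          mul_le_mul_of_nonneg_left h1 (by positivity)
      _ ≤ ε := by nlinarith
  · intro e he
    refine ⟨?_, ?_, ?_⟩
    · rw [cfc_lin y e φ hφc]
      apply norm_cfc_le zero_le_one
      intro t ht
      rw [Real.norm_eq_abs]
      refine (Finset.abs_sum_le_sum_abs _ _).trans ?_
      have h1 := (point_facts hN1 (hspec t ht)).1
      have h2 := hsumS (fun i => hat (t / δ - i))
      rw [← h1, ← h2]
      apply Finset.sum_le_sum
      intro i _
      rw [abs_mul]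
      have h4 : |φ i t| = hat (t / δ - (i : ℤ)) := abs_of_nonneg (hat_nonneg _)
      rw [h4]
      calc |e i| * hat (t / δ - (i : ℤ)) ≤ 1 * hat (t / δ - (i : ℤ)) := mul_le_mul_of_nonneg_right (he i) (hat_nonneg _)
        _ = _ := one_mul _
    · rw [cfc_lin y (fun i : S => e i * (((i : ℤ) : ℝ) * δ)) φ hφc]
      apply norm_cfc_le (by positivity)
      intro t ht
      rw [Real.norm_eq_abs]
      refine (Finset.abs_sum_le_sum_abs _ _).trans ?_
      have h1 := (point_facts hN1 (hspec t ht)).2.2.2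
      have h2 := hsumS (fun i => |(i : ℝ)| * hat (t / δ - i))
      have h5 : ∑ i : S, |e i * (((i : ℤ) : ℝ) * δ) * φ i t| ≤ δ * ∑ i : S, |((i : ℤ) : ℝ)| * hat (t / δ - (i : ℤ)) := by
        rw [Finset.mul_sum]
        apply Finset.sum_le_sum
        intro i _
        have h4 : |φ i t| = hat (t / δ - (i : ℤ)) := abs_of_nonneg (hat_nonneg _)
        rw [abs_mul, abs_mul, abs_mul, abs_of_pos hδ0, h4]
        have h6 : 0 ≤ |((i : ℤ) : ℝ)| * δ * hat (t / δ - (i : ℤ)) := mul_nonneg (by positivity) (hat_nonneg _)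
        have h7 := he i
        nlinarith
      have h8 : δ * ∑ i : S, |((i : ℤ) : ℝ)| * hat (t / δ - (i : ℤ)) = |t| := by
        rw [h2, h1, abs_div, abs_of_pos hδ0]; field_simp
      rw [h8] at h5
      have := hspec' t ht
      linarith
    · have hterm : ∀ i : S, e i • ((algebraMap ℝ A (((i : ℤ) : ℝ) * δ) - y) * cfc (ψ i) y) =
          e i • cfc (fun t => ((((i : ℤ) : ℝ) * δ) - t) * ψ i t) y := by
        intro i
        congr 1
        rw [cfc_mul (fun t => (((i : ℤ) : ℝ) * δ) - t) (ψ i) y (by fun_prop) (hψc i).continuousOn,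
          cfc_sub (fun _ => (((i : ℤ) : ℝ) * δ)) (fun t => t) y (by fun_prop) (by fun_prop), cfc_id' ℝ y, cfc_const _ y]
      simp_rw [hterm]
      rw [cfc_lin y e (fun i : S => fun t => ((((i : ℤ) : ℝ) * δ) - t) * ψ i t) (fun i => by
        have := hψc i
        fun_prop)]
      apply norm_cfc_le hε.le
      intro t ht
      rw [Real.norm_eq_abs]
      refine (Finset.abs_sum_le_sum_abs _ _).trans ?_
      have h2 := hsumS (fun i => psi (t / δ - i))
      have h3 := psi_sum_le (t / δ) S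
      have h5 : ∑ i : S, |e i * (((((i : ℤ) : ℝ) * δ) - t) * ψ i t)| ≤ (2 * δ) * ∑ i : S, psi (t / δ - (i : ℤ)) := by
        rw [Finset.mul_sum]
        apply Finset.sum_le_sum
        intro i _
        have h4 : |ψ i t| = psi (t / δ - (i : ℤ)) := abs_of_nonneg (psi_nonneg _)
        have h6 : |((i : ℤ) : ℝ) * δ - t| = δ * |t / δ - (i : ℤ)| := by
          rw [← abs_of_pos hδ0, ← abs_mul, abs_of_pos hδ0, abs_sub_comm]
          congr 1
          field_simp
        rw [abs_mul, abs_mul, h4, h6]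
        have h7 := psi_supp (t / δ - (i : ℤ))
        have h8 := he i
        have h9 : 0 ≤ δ * |t / δ - (i : ℤ)| * psi (t / δ - (i : ℤ)) := mul_nonneg (by positivity) (psi_nonneg _)
        have h10 : δ * |t / δ - (i : ℤ)| * psi (t / δ - (i : ℤ)) ≤ 2 * δ * psi (t / δ - (i : ℤ)) := by nlinarith
        have h11 := abs_nonneg (e i)
        nlinarith
      rw [h2] at h5
      have h12 : 0 ≤ ∑ i ∈ S, psi (t / δ - i) := Finset.sum_nonneg (fun i _ => psi_nonneg _)
      nlinarith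

end cfcpart

/-- TARGET: hat-function partition of unity in the functional calculus of a self-adjoint element. -/
theorem partition_exists {A : Type*} [CStarAlgebra A] [PartialOrder A] [StarOrderedRing A]
    (y : A) (hy : IsSelfAdjoint y) (ε : ℝ) (hε : 0 < ε) :
    ∃ (n : ℕ) (s : Fin n → ℝ) (u v : Fin n → A),
      (∀ j, 0 ≤ u j) ∧ (∀ j, IsSelfAdjoint (v j)) ∧ (∀ j, u j * (1 - v j) = 0) ∧
      (∀ j, Commute y (v j)) ∧ (∑ j, u j = 1) ∧ (∑ j, s j • u j = y) ∧
      ‖y * y - ∑ j, (s j) ^ 2 • u j‖ ≤ ε ∧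
      (∀ e : Fin n → ℝ, (∀ j, |e j| ≤ 1) →
        ‖∑ j, e j • u j‖ ≤ 1 ∧ ‖∑ j, (e j * s j) • u j‖ ≤ ‖y‖ + 1 ∧
        ‖∑ j, e j • ((algebraMap ℝ A (s j) - y) * v j)‖ ≤ ε) := by
  rcases subsingleton_or_nontrivial A with hA | hA
  · refine ⟨0, fun _ => 0, fun _ => 0, fun _ => 0, fun j => j.elim0, fun j => j.elim0, fun j => j.elim0, fun j => j.elim0,
      Subsingleton.elim _ _, Subsingleton.elim _ _, ?_, ?_⟩
    · rw [Subsingleton.elim (y * y - _) 0, norm_zero]; exact hε.le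
    · intro e _
      refine ⟨?_, ?_, ?_⟩
      · rw [Subsingleton.elim (∑ j, _) (0 : A), norm_zero]; exact zero_le_one
      · rw [Subsingleton.elim (∑ j, _) (0 : A), norm_zero]; positivity
      · rw [Subsingleton.elim (∑ j, _) (0 : A), norm_zero]; exact hε.le
  · obtain ⟨ι, hι, s, u, v, h1, h2, h3, h4, h5, h6, h7, h8⟩ := core y hy ε hε
    let f := (Fintype.equivFin ι).symm
    refine ⟨Fintype.card ι, s ∘ f, u ∘ f, v ∘ f, fun j => h1 _, fun j => h2 _, fun j => h3 _, fun j => h4 _, ?_, ?_, ?_, ?_⟩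
    · rw [← h5]; exact Equiv.sum_comp f u
    · conv_rhs => rw [← h6]
      exact Equiv.sum_comp f (fun i => s i • u i)
    · have := Equiv.sum_comp f (fun i => (s i) ^ 2 • u i)
      simp only [Function.comp]
      rw [this]; exact h7
    · intro e he
      obtain ⟨g1, g2, g3⟩ := h8 (e ∘ f.symm) (fun j => he _)
      refine ⟨?_, ?_, ?_⟩
      · rw [← Equiv.sum_comp f] at g1
        simpa using g1
      · rw [← Equiv.sum_comp f] at g2
        simpa using g2
      · rw [← Equiv.sum_comp f] at g3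
        simpa using g3

end Pool.Agent.Helper280.SIC1
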