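import Mathlib

set_option autoImplicit false

namespace Pool.Agent.Helper280.SIC2

theorem sign_aux {X Y Z : Type*} [NormedAddCommGroup X] [NormedSpace ℂ X]
    [NormedAddCommGroup Y] [NormedSpace ℂ Y] [NormedAddCommGroup Z] [NormedSpace ℂ Z]
    (B : X →L[ℂ] Y →L[ℂ] Z) {n : ℕ} (x : Fin n → X) (w : Fin n → Y) (S : Finset (Fin n)) :
    ∀ (X0 : X) (Y0 : Y), ∃ e : Fin n → ℝ, (∀ j, |e j| ≤ 1) ∧
      ‖B X0 Y0 + ∑ j ∈ S, B (x j) (w j)‖ ≤
        ‖B (X0 + ∑ j ∈ S, e j • x j) (Y0 + ∑ j ∈ S, e j • w j)‖ := by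
  classical
  induction S using Finset.induction_on with
  | empty =>
    intro X0 Y0
    exact ⟨0, by simp, by simp⟩
  | insert i S hi ih =>
    intro X0 Y0
    set T := ∑ j ∈ S, B (x j) (w j) with hT
    have hσ : ∃ σ : ℝ, |σ| ≤ 1 ∧ ‖B X0 Y0 + (B (x i) (w i) + T)‖ ≤
        ‖B (X0 + σ • x i) (Y0 + σ • w i) + T‖ := by
      by_contra hcon
      push Not at hcon
      have h1 := hcon 1 (by simp)
      have h2 := hcon (-1) (by simp)
      have h3 : B X0 Y0 + (B (x i) (w i) + T) =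
          (1 / 2 : ℝ) • (B (X0 + (1 : ℝ) • x i) (Y0 + (1 : ℝ) • w i) + T) +
          (1 / 2 : ℝ) • (B (X0 + (-1 : ℝ) • x i) (Y0 + (-1 : ℝ) • w i) + T) := by
        simp only [one_smul, neg_smul, map_add, map_neg, add_apply,
          neg_apply]
        module
      have h4 : ‖B X0 Y0 + (B (x i) (w i) + T)‖ ≤
          (1 / 2 : ℝ) * ‖B (X0 + (1 : ℝ) • x i) (Y0 + (1 : ℝ) • w i) + T‖ +
          (1 / 2 : ℝ) * ‖B (X0 + (-1 : ℝ) • x i) (Y0 + (-1 : ℝ) • w i) + T‖ := by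
        conv_lhs => rw [h3]
        refine (norm_add_le _ _).trans ?_
        rw [norm_smul, norm_smul]
        norm_num
      linarith
    obtain ⟨σ, hσ1, hσ2⟩ := hσ
    obtain ⟨e, he1, he2⟩ := ih (X0 + σ • x i) (Y0 + σ • w i)
    refine ⟨Function.update e i σ, ?_, ?_⟩
    · intro j
      by_cases hj : j = i
      · subst hj
        simpa using hσ1
      · rw [Function.update_of_ne hj]
        exact he1 j
    · rw [Finset.sum_insert hi, Finset.sum_insert hi, Finset.sum_insert hi]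
      have e1 : ∑ j ∈ S, (Function.update e i σ) j • x j = ∑ j ∈ S, e j • x j := by
        apply Finset.sum_congr rfl
        intro j hj
        rw [Function.update_of_ne (ne_of_mem_of_not_mem hj hi)]
      have e2 : ∑ j ∈ S, (Function.update e i σ) j • w j = ∑ j ∈ S, e j • w j := by
        apply Finset.sum_congr rfl
        intro j hj
        rw [Function.update_of_ne (ne_of_mem_of_not_mem hj hi)]
      rw [e1, e2, Function.update_self, ← add_assoc X0, ← add_assoc Y0]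
      exact hσ2.trans he2

/-- TARGET 1 (sign lemma). -/
theorem sign_lemma {X Y Z : Type*} [NormedAddCommGroup X] [NormedSpace ℂ X]
    [NormedAddCommGroup Y] [NormedSpace ℂ Y] [NormedAddCommGroup Z] [NormedSpace ℂ Z]
    (B : X →L[ℂ] Y →L[ℂ] Z) {n : ℕ} (x : Fin n → X) (w : Fin n → Y) :
    ∃ e : Fin n → ℝ, (∀ j, |e j| ≤ 1) ∧
      ‖∑ j, B (x j) (w j)‖ ≤ ‖B (∑ j, e j • x j) (∑ j, e j • w j)‖ := by
  obtain ⟨e, h1, h2⟩ := sign_aux B x w Finset.univ 0 0
  exact ⟨e, h1, by simpa using h2⟩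

/-- consequence of the sign lemma -/
theorem sign_bound {X Y Z : Type*} [NormedAddCommGroup X] [NormedSpace ℂ X]
    [NormedAddCommGroup Y] [NormedSpace ℂ Y] [NormedAddCommGroup Z] [NormedSpace ℂ Z]
    (B : X →L[ℂ] Y →L[ℂ] Z) {n : ℕ} (x : Fin n → X) (w : Fin n → Y) (c a b : ℝ) (hc : 0 ≤ c)
    (hB : ∀ p q, ‖B p q‖ ≤ c * (‖p‖ * ‖q‖))
    (ha : ∀ e : Fin n → ℝ, (∀ j, |e j| ≤ 1) → ‖∑ j, e j • x j‖ ≤ a)
    (hb : ∀ e : Fin n → ℝ, (∀ j, |e j| ≤ 1) → ‖∑ j, e j • w j‖ ≤ b) :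
    ‖∑ j, B (x j) (w j)‖ ≤ c * (a * b) := by
  obtain ⟨e, h1, h2⟩ := sign_lemma B x w
  refine h2.trans ((hB _ _).trans ?_)
  apply mul_le_mul_of_nonneg_left _ hc
  have h3 := ha e h1
  exact mul_le_mul h3 (hb e h1) (norm_nonneg _) ((norm_nonneg _).trans h3)

theorem jordan_sa {A : Type*} [CStarAlgebra A] [PartialOrder A] [StarOrderedRing A]
    (G : A →L[ℂ] A) (h1 : G 1 = 0)
    (hZ : ∀ b h : A, 0 ≤ b → b * h = 0 → star h * G b * h = 0) (y : A)
    (ε : ℝ) (hε : 0 < ε) (hε1 : ε < 1) (n : ℕ) (s : Fin n → ℝ) (u v : Fin n → A)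
    (p1 : ∀ j, 0 ≤ u j) (p2 : ∀ j, IsSelfAdjoint (v j)) (p3 : ∀ j, u j * (1 - v j) = 0)
    (p4 : ∀ j, Commute y (v j)) (p5 : ∑ j, u j = 1) (p6 : ∑ j, s j • u j = y)
    (p7 : ‖y * y - ∑ j, (s j) ^ 2 • u j‖ ≤ ε)
    (p8 : ∀ e : Fin n → ℝ, (∀ j, |e j| ≤ 1) →
        ‖∑ j, e j • u j‖ ≤ 1 ∧ ‖∑ j, (e j * s j) • u j‖ ≤ ‖y‖ + 1 ∧
        ‖∑ j, e j • ((algebraMap ℝ A (s j) - y) * v j)‖ ≤ ε) :
    ‖G (y * y) - (y * G y + G y * y)‖ ≤ ‖G‖ * (4 * ‖y‖ + 4) * ε := by
  have hG0 := norm_nonneg G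
  have hy0 := norm_nonneg y
  set a : Fin n → A := fun j => (algebraMap ℝ A (s j) - y) * v j with ha
  have hav : ∀ j, v j * (algebraMap ℝ A (s j) - y) = a j := by
    intro j
    rw [ha]
    simp only
    rw [mul_sub, sub_mul, (p4 j).eq, Algebra.commutes]
  have hGu : ∀ j, G (u j) = v j * G (u j) + G (u j) * v j - v j * G (u j) * v j := by
    intro j
    have h2 := hZ (u j) (1 - v j) (p1 j) (p3 j)
    have h3 : star (1 - v j) = 1 - v j := by
      rw [star_sub, star_one, (p2 j).star_eq]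
    rw [h3] at h2
    have h4 : (1 - v j) * G (u j) * (1 - v j) =
        G (u j) - (v j * G (u j) + G (u j) * v j - v j * G (u j) * v j) := by
      noncomm_ring
    rw [h4] at h2
    exact sub_eq_zero.mp h2
  have hloc : ∀ j, (algebraMap ℝ A (s j) - y) * G (u j) * (algebraMap ℝ A (s j) - y) =
      a j * G (u j) * (algebraMap ℝ A (s j) - y) + (algebraMap ℝ A (s j) - y) * G (u j) * a j
        - a j * G (u j) * a j := by
    intro j
    have h2 := hav j
    set t := algebraMap ℝ A (s j) - y with ht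
    have h3 : a j = t * v j := rfl
    conv_lhs => rw [hGu j]
    have h4 : t * (v j * G (u j) + G (u j) * v j - v j * G (u j) * v j) * t =
        (t * v j) * G (u j) * t + t * G (u j) * (v j * t) - (t * v j) * G (u j) * (v j * t) := by
      noncomm_ring
    rw [h4, h2, ← h3]
  have hexp : ∀ (r : ℝ) (g : A), (algebraMap ℝ A r - y) * g * (algebraMap ℝ A r - y) =
      r ^ 2 • g - y * (r • g) - (r • g) * y + y * g * y := by
    intro r g
    rw [Algebra.algebraMap_eq_smul_one]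
    simp only [sub_mul, mul_sub, smul_mul_assoc, one_mul, mul_smul_comm, mul_one, smul_sub,
      smul_smul, pow_two]
    abel
  have hGs : ∀ (r : ℝ) (g : A), G (r • g) = r • G g := fun r g => G.map_smul_of_tower r g
  have hL : ∑ j, (algebraMap ℝ A (s j) - y) * G (u j) * (algebraMap ℝ A (s j) - y) =
      G (∑ j, (s j) ^ 2 • u j) - y * G y - G y * y := by
    calc ∑ j, (algebraMap ℝ A (s j) - y) * G (u j) * (algebraMap ℝ A (s j) - y)
        = ∑ j, ((s j) ^ 2 • G (u j) - y * (s j • G (u j)) - (s j • G (u j)) * y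
            + y * G (u j) * y) := Finset.sum_congr rfl fun j _ => hexp _ _
      _ = (∑ j, (s j) ^ 2 • G (u j)) - y * (∑ j, s j • G (u j)) - (∑ j, s j • G (u j)) * y
            + y * (∑ j, G (u j)) * y := by
          rw [Finset.mul_sum, Finset.mul_sum, Finset.sum_mul, Finset.sum_mul,
            Finset.sum_add_distrib, Finset.sum_sub_distrib, Finset.sum_sub_distrib]
      _ = _ := by
          have e1 : ∑ j, (s j) ^ 2 • G (u j) = G (∑ j, (s j) ^ 2 • u j) := by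
            rw [map_sum]
            exact Finset.sum_congr rfl fun j _ => (hGs _ _).symm
          have e2 : ∑ j, s j • G (u j) = G y := by
            conv_rhs => rw [← p6]
            rw [map_sum]
            exact Finset.sum_congr rfl fun j _ => (hGs _ _).symm
          have e3 : ∑ j, G (u j) = 0 := by
            rw [← map_sum, p5, h1]
          rw [e1, e2, e3]
          simp
  -- bilinear maps
  let B1 : A →L[ℂ] A →L[ℂ] A := ((ContinuousLinearMap.mul ℂ A).flip.comp G).flip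
  let B2 : A →L[ℂ] A →L[ℂ] A := (ContinuousLinearMap.mul ℂ A).comp G
  let B3 : A →L[ℂ] A →L[ℂ] A := ContinuousLinearMap.mul ℂ A
  have hB1 : ∀ p q, B1 p q = p * G q := fun p q => rfl
  have hB2 : ∀ p q, B2 p q = G p * q := fun p q => rfl
  have hB3 : ∀ p q, B3 p q = p * q := fun p q => rfl
  have nB1 : ∀ p q, ‖B1 p q‖ ≤ ‖G‖ * (‖p‖ * ‖q‖) := by
    intro p q
    rw [hB1]
    have h2 := G.le_opNorm q
    calc ‖p * G q‖ ≤ ‖p‖ * ‖G q‖ := norm_mul_le _ _
      _ ≤ ‖p‖ * (‖G‖ * ‖q‖) := by gcongr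
      _ = _ := by ring
  have nB2 : ∀ p q, ‖B2 p q‖ ≤ ‖G‖ * (‖p‖ * ‖q‖) := by
    intro p q
    rw [hB2]
    have h2 := G.le_opNorm p
    calc ‖G p * q‖ ≤ ‖G p‖ * ‖q‖ := norm_mul_le _ _
      _ ≤ (‖G‖ * ‖p‖) * ‖q‖ := by gcongr
      _ = _ := by ring
  have nB3 : ∀ p q, ‖B3 p q‖ ≤ 1 * (‖p‖ * ‖q‖) := by
    intro p q
    rw [hB3, one_mul]
    exact norm_mul_le _ _
  have q1 : ∀ e : Fin n → ℝ, (∀ j, |e j| ≤ 1) → ‖∑ j, e j • a j‖ ≤ ε := fun e he => (p8 e he).2.2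
  have q2 : ∀ e : Fin n → ℝ, (∀ j, |e j| ≤ 1) → ‖∑ j, e j • u j‖ ≤ 1 := fun e he => (p8 e he).1
  have q3 : ∀ e : Fin n → ℝ, (∀ j, |e j| ≤ 1) → ‖∑ j, e j • (s j • u j)‖ ≤ ‖y‖ + 1 := by
    intro e he
    have h2 := (p8 e he).2.1
    simpa only [smul_smul] using h2
  have r1 : ‖∑ j, a j * G (s j • u j)‖ ≤ ‖G‖ * (ε * (‖y‖ + 1)) :=
    sign_bound B1 a (fun j => s j • u j) ‖G‖ ε (‖y‖ + 1) hG0 nB1 q1 q3
  have r2 : ‖∑ j, a j * G (u j)‖ ≤ ‖G‖ * (ε * 1) :=
    sign_bound B1 a u ‖G‖ ε 1 hG0 nB1 q1 q2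
  have r3 : ‖∑ j, G (s j • u j) * a j‖ ≤ ‖G‖ * ((‖y‖ + 1) * ε) :=
    sign_bound B2 (fun j => s j • u j) a ‖G‖ (‖y‖ + 1) ε hG0 nB2 q3 q1
  have r4 : ‖∑ j, G (u j) * a j‖ ≤ ‖G‖ * (1 * ε) :=
    sign_bound B2 u a ‖G‖ 1 ε hG0 nB2 q2 q1
  have r5 : ‖∑ j, a j * (G (u j) * a j)‖ ≤ 1 * (ε * (‖G‖ * (1 * ε))) := by
    refine sign_bound B3 a (fun j => G (u j) * a j) 1 ε (‖G‖ * (1 * ε)) zero_le_one nB3 q1 ?_
    intro e he
    have h2 : ∑ j, e j • (G (u j) * a j) = ∑ j, G (e j • u j) * a j := by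
      apply Finset.sum_congr rfl
      intro j _
      rw [hGs, smul_mul_assoc]
    rw [h2]
    refine sign_bound B2 (fun j => e j • u j) a ‖G‖ 1 ε hG0 nB2 ?_ q1
    intro e' he'
    have h3 : ∑ j, e' j • (e j • u j) = ∑ j, (e' j * e j) • u j := by
      simp only [smul_smul]
    rw [h3]
    apply q2
    intro j
    rw [abs_mul]
    exact mul_le_one₀ (he' j) (abs_nonneg _) (he j)
  have hR : ∑ j, (algebraMap ℝ A (s j) - y) * G (u j) * (algebraMap ℝ A (s j) - y) =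
      (∑ j, a j * G (s j • u j)) - (∑ j, a j * G (u j)) * y +
      ((∑ j, G (s j • u j) * a j) - y * (∑ j, G (u j) * a j)) -
      ∑ j, a j * (G (u j) * a j) := by
    rw [Finset.mul_sum, Finset.sum_mul, ← Finset.sum_sub_distrib, ← Finset.sum_sub_distrib,
      ← Finset.sum_add_distrib, ← Finset.sum_sub_distrib]
    apply Finset.sum_congr rfl
    intro j _
    rw [hloc j, hGs]
    rw [Algebra.algebraMap_eq_smul_one]
    simp only [sub_mul, mul_sub, smul_mul_assoc, one_mul, mul_smul_comm, mul_one, mul_assoc]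
  have hfin : G (y * y) - (y * G y + G y * y) = G (y * y - ∑ j, (s j) ^ 2 • u j) +
      ((∑ j, a j * G (s j • u j)) - (∑ j, a j * G (u j)) * y +
      ((∑ j, G (s j • u j) * a j) - y * (∑ j, G (u j) * a j)) -
      ∑ j, a j * (G (u j) * a j)) := by
    rw [← hR, hL, map_sub]
    abel
  rw [hfin]
  have t1 : ‖G (y * y - ∑ j, (s j) ^ 2 • u j)‖ ≤ ‖G‖ * ε :=
    (G.le_opNorm _).trans (by gcongr)
  have t2 : ‖(∑ j, a j * G (u j)) * y‖ ≤ ‖G‖ * (ε * 1) * ‖y‖ :=
    (norm_mul_le _ _).trans (by gcongr)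
  have t3 : ‖y * (∑ j, G (u j) * a j)‖ ≤ ‖y‖ * (‖G‖ * (1 * ε)) :=
    (norm_mul_le _ _).trans (by gcongr)
  have t4 : 1 * (ε * (‖G‖ * (1 * ε))) ≤ ‖G‖ * ε := by
    have : ε * ε ≤ ε := by nlinarith
    nlinarith
  have key : ∀ P Q R S T U : A, ‖P + (Q - R + (S - T) - U)‖ ≤ ‖P‖ + ‖Q‖ + ‖R‖ + ‖S‖ + ‖T‖ + ‖U‖ := by
    intro P Q R S T U
    have k1 := norm_add_le P (Q - R + (S - T) - U)
    have k2 := norm_sub_le (Q - R + (S - T)) U
    have k3 := norm_add_le (Q - R) (S - T)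
    have k4 := norm_sub_le Q R
    have k5 := norm_sub_le S T
    linarith
  refine (key _ _ _ _ _ _).trans ?_
  nlinarith

/-- TARGET 2: a bounded linear map with `G 1 = 0` and the disjointness property is a Jordan derivation.
`part` is the hat-function partition (proved elsewhere), use it as a hypothesis. -/
theorem jordan_of_Z {A : Type*} [CStarAlgebra A] [PartialOrder A] [StarOrderedRing A]
    (part : ∀ (y : A) (_hy : IsSelfAdjoint y) (ε : ℝ) (_hε : 0 < ε),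
      ∃ (n : ℕ) (s : Fin n → ℝ) (u v : Fin n → A),
      (∀ j, 0 ≤ u j) ∧ (∀ j, IsSelfAdjoint (v j)) ∧ (∀ j, u j * (1 - v j) = 0) ∧
      (∀ j, Commute y (v j)) ∧ (∑ j, u j = 1) ∧ (∑ j, s j • u j = y) ∧
      ‖y * y - ∑ j, (s j) ^ 2 • u j‖ ≤ ε ∧
      (∀ e : Fin n → ℝ, (∀ j, |e j| ≤ 1) →
        ‖∑ j, e j • u j‖ ≤ 1 ∧ ‖∑ j, (e j * s j) • u j‖ ≤ ‖y‖ + 1 ∧
        ‖∑ j, e j • ((algebraMap ℝ A (s j) - y) * v j)‖ ≤ ε))
    (G : A →L[ℂ] A) (h1 : G 1 = 0)
    (hZ : ∀ b h : A, 0 ≤ b → b * h = 0 → star h * G b * h = 0) :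
    ∀ x : A, G (x * x) = x * G x + G x * x := by
  have hsa : ∀ y : A, IsSelfAdjoint y → G (y * y) = y * G y + G y * y := by
    intro y hy
    by_contra hne
    have hpos : 0 < ‖G (y * y) - (y * G y + G y * y)‖ := norm_pos_iff.mpr (sub_ne_zero.mpr hne)
    set δ := ‖G (y * y) - (y * G y + G y * y)‖ with hδ
    set C := ‖G‖ * (4 * ‖y‖ + 4) with hC
    have hC0 : 0 ≤ C := by positivity
    have hε : 0 < min (1 / 2) (δ / (2 * (C + 1))) := lt_min (by norm_num) (by positivity)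
    have hε1 : min (1 / 2) (δ / (2 * (C + 1))) < 1 := lt_of_le_of_lt (min_le_left _ _) (by norm_num)
    obtain ⟨n, s, u, v, p1, p2, p3, p4, p5, p6, p7, p8⟩ := part y hy _ hε
    have h2 := jordan_sa G h1 hZ y _ hε hε1 n s u v p1 p2 p3 p4 p5 p6 p7 p8
    rw [← hδ, ← hC] at h2
    have h3 : C * min (1 / 2) (δ / (2 * (C + 1))) ≤ C * (δ / (2 * (C + 1))) :=
      mul_le_mul_of_nonneg_left (min_le_right _ _) hC0
    have h4 : C * (δ / (2 * (C + 1))) < δ := by
      rw [mul_div_assoc', div_lt_iff₀ (by positivity)]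
      nlinarith
    linarith
  have hpol : ∀ y z : A, IsSelfAdjoint y → IsSelfAdjoint z →
      G (y * z + z * y) = y * G z + z * G y + G y * z + G z * y := by
    intro y z hy hz
    have e1 := hsa (y + z) (hy.add hz)
    have e2 := hsa y hy
    have e3 := hsa z hz
    have e4 : (y + z) * (y + z) = y * y + z * z + (y * z + z * y) := by noncomm_ring
    have e6 : G (y * y + z * z + (y * z + z * y)) = G (y * y) + G (z * z) + G (y * z + z * y) := by
      rw [map_add, map_add]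
    have e7 : G (y + z) = G y + G z := map_add _ _ _
    rw [e4, e6, e7, e2, e3] at e1
    have e5 : G (y * z + z * y) = ((y + z) * (G y + G z) + (G y + G z) * (y + z)) -
        (y * G y + G y * y + (z * G z + G z * z)) := by
      rw [← e1]
      abel
    rw [e5]
    noncomm_ring
  intro x
  have hx := realPart_add_I_smul_imaginaryPart x
  set y : A := (realPart x : A) with hy
  set z : A := (imaginaryPart x : A) with hz
  have hys : IsSelfAdjoint y := (realPart x).2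
  have hzs : IsSelfAdjoint z := (imaginaryPart x).2
  have e1 := hsa y hys
  have e2 := hsa z hzs
  have e3 := hpol y z hys hzs
  rw [← hx]
  have e4 : (y + Complex.I • z) * (y + Complex.I • z) =
      y * y + Complex.I • (y * z + z * y) - z * z := by
    simp only [add_mul, mul_add, smul_mul_assoc, mul_smul_comm, smul_smul, Complex.I_mul_I,
      smul_add, neg_smul, one_smul]
    abel
  rw [e4, map_sub, map_add, map_smul, e1, e2, e3, map_add, map_smul]
  simp only [add_mul, mul_add, smul_mul_assoc, mul_smul_comm, smul_smul, Complex.I_mul_I,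
    smul_add, neg_smul, one_smul]
  abel

end Pool.Agent.Helper280.SIC2
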