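import Mathlib

set_option autoImplicit false

namespace Pool.Agent.Helper280.SID

/-- A C*-algebra is semiprime. -/
lemma semiprime {A : Type*} [CStarAlgebra A] (a : A) (h : ∀ x : A, a * x * a = 0) : a = 0 := by
  have h1 : (a * star a) * (a * star a) = 0 := by
    have := h (star a)
    rw [← mul_assoc, this, zero_mul]
  have h2 : a * star a = 0 := by
    have h3 : IsSelfAdjoint (a * star a) := IsSelfAdjoint.mul_star_self a
    have h4 : star (a * star a) * (a * star a) = 0 := by rw [h3.star_eq]; exact h1
    exact (CStarRing.star_mul_self_eq_zero_iff _).1 h4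
  exact (CStarRing.mul_star_self_eq_zero_iff _).1 h2

section JordanRing

variable {A : Type*} [Ring A]

theorem jr_lin (d : A →+ A) (hd : ∀ x, d (x * x) = x * d x + d x * x) (x y : A) :
    d (x * y) + d (y * x) = d x * y + x * d y + d y * x + y * d x := by
  have h := hd (x + y)
  simp only [map_add, mul_add, add_mul] at h
  linear_combination (norm := noncomm_ring) h - hd x - hd y

theorem jr_tri (d : A →+ A) (hd : ∀ x, d (x * x) = x * d x + d x * x)
    (htwo : ∀ z : A, z + z = 0 → z = 0) (x y : A) :
    d (x * y * x) = d x * y * x + x * d y * x + x * y * d x := by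
  have h2 := jr_lin d hd x (x * y + y * x)
  have h3 := jr_lin d hd (x * x) y
  have h1 := jr_lin d hd x y
  have h0 := hd x
  simp only [map_add, mul_add, add_mul, ← mul_assoc] at h2 h3
  apply sub_eq_zero.1
  apply htwo
  linear_combination (norm := noncomm_ring) h2 - h3 + x * h1 + h1 * x - h0 * y - y * h0

theorem jr_tri2 (d : A →+ A) (hd : ∀ x, d (x * x) = x * d x + d x * x)
    (htwo : ∀ z : A, z + z = 0 → z = 0) (x y z : A) :
    d (x * y * z) + d (z * y * x) = d x * y * z + x * d y * z + x * y * d z +
      (d z * y * x + z * d y * x + z * y * d x) := by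
  have h := jr_tri d hd htwo (x + z) y
  have h1 := jr_tri d hd htwo x y
  have h2 := jr_tri d hd htwo z y
  simp only [map_add, mul_add, add_mul] at h
  linear_combination (norm := noncomm_ring) h - h1 - h2

/-- the defect -/
def jdef (d : A →+ A) (a b : A) : A := d (a * b) - d a * b - a * d b

theorem jdef_anti (d : A →+ A) (hd : ∀ x, d (x * x) = x * d x + d x * x) (a b : A) :
    jdef d b a = -jdef d a b := by
  unfold jdef
  have h := jr_lin d hd a b
  linear_combination (norm := noncomm_ring) h

theorem jdef_add_left (d : A →+ A) (a c b : A) :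
    jdef d (a + c) b = jdef d a b + jdef d c b := by
  unfold jdef
  simp only [map_add, add_mul]
  abel

theorem jdef_add_right (d : A →+ A) (a b c : A) :
    jdef d a (b + c) = jdef d a b + jdef d a c := by
  unfold jdef
  simp only [map_add, mul_add]
  abel

theorem jr_four (d : A →+ A) (hd : ∀ x, d (x * x) = x * d x + d x * x)
    (htwo : ∀ z : A, z + z = 0 → z = 0) (a b x : A) :
    (a * b - b * a) * x * jdef d a b + jdef d a b * x * (a * b - b * a) = 0 := by
  have h1 := jr_tri2 d hd htwo (a * b) x (b * a)
  have h2 := jr_tri d hd htwo a (b * x * b)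
  have h3 := jr_tri d hd htwo b x
  have h4 := jr_tri d hd htwo b (a * x * a)
  have h5 := jr_tri d hd htwo a x
  have h6 := jdef_anti d hd a b
  have e1 : a * (b * x * b) * a = a * b * x * (b * a) := by simp only [mul_assoc]
  have e2 : b * (a * x * a) * b = b * a * x * (a * b) := by simp only [mul_assoc]
  rw [e1] at h2
  rw [e2] at h4
  obtain ⟨P, hP⟩ : ∃ P, P = d (a * b * x * (b * a)) := ⟨_, rfl⟩
  obtain ⟨Q, hQ⟩ : ∃ Q, Q = d (b * a * x * (a * b)) := ⟨_, rfl⟩
  rw [← hP] at h1 h2
  rw [← hQ] at h1 h4
  have h7 : jdef d a b * x * (b * a) + a * b * x * jdef d b a + jdef d b a * x * (a * b) +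
      b * a * x * jdef d a b = 0 := by
    unfold jdef
    linear_combination (norm := noncomm_ring) -h1 + h2 + a * h3 * a + h4 + b * h5 * b
  rw [h6] at h7
  linear_combination (norm := noncomm_ring) -h7

theorem jr_five (hsemi : ∀ a : A, (∀ x : A, a * x * a = 0) → a = 0)
    (htwo : ∀ z : A, z + z = 0 → z = 0) (a b : A) (h : ∀ x, a * x * b + b * x * a = 0) (x : A) :
    b * x * a = 0 := by
  have h1 : ∀ x y, b * x * b * y * a = 0 := by
    intro x y
    apply htwo
    have e1 := h x
    have e2 := h y
    have e3 := h (x * b * y)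
    linear_combination (norm := noncomm_ring) e3 - e1 * y * b + b * x * e2
  apply hsemi
  intro y
  have e1 := h y
  have e2 := h1 x y
  linear_combination (norm := noncomm_ring) b * x * e1 * x * a - e2 * x * a

theorem jr_main (d : A →+ A) (hd : ∀ x, d (x * x) = x * d x + d x * x)
    (hsemi : ∀ a : A, (∀ x : A, a * x * a = 0) → a = 0)
    (htwo : ∀ z : A, z + z = 0 → z = 0) (a b : A) : jdef d a b = 0 := by
  have h5 : ∀ a b x, jdef d a b * x * (a * b - b * a) = 0 := fun a b x =>
    jr_five hsemi htwo _ _ (jr_four d hd htwo a b) x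
  have h6 : ∀ a b c x, jdef d a b * x * (c * b - b * c) = 0 := by
    intro a b c x
    have hx : ∀ x, jdef d a b * x * (c * b - b * c) + jdef d c b * x * (a * b - b * a) = 0 := by
      intro x
      have e1 := h5 (a + c) b x
      rw [jdef_add_left] at e1
      have e2 := h5 a b x
      have e3 := h5 c b x
      linear_combination (norm := noncomm_ring) e1 - e2 - e3
    apply hsemi
    intro y
    have e1 := hx x
    have e2 := h5 a b (x * (c * b - b * c) * y * jdef d c b * x)
    linear_combination (norm := noncomm_ring)
      jdef d a b * x * (c * b - b * c) * y * e1 - e2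
  have h7 : ∀ a b c e x, jdef d a b * x * (c * e - e * c) = 0 := by
    intro a b c e x
    have hx : ∀ x, jdef d a b * x * (c * e - e * c) + jdef d a e * x * (c * b - b * c) = 0 := by
      intro x
      have e1 := h6 a (b + e) c x
      rw [jdef_add_right] at e1
      have e2 := h6 a b c x
      have e3 := h6 a e c x
      linear_combination (norm := noncomm_ring) e1 - e2 - e3
    apply hsemi
    intro y
    have e1 := hx x
    have e2 := h6 a b c (x * (c * e - e * c) * y * jdef d a e * x)
    linear_combination (norm := noncomm_ring)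
      jdef d a b * x * (c * e - e * c) * y * e1 - e2
  obtain ⟨g, hg⟩ : ∃ g, g = jdef d a b := ⟨_, rfl⟩
  have h8 : ∀ c e x, g * x * (c * e - e * c) = 0 := by
    intro c e x
    rw [hg]
    exact h7 a b c e x
  have hcen : ∀ c, g * c = c * g := by
    intro c
    apply sub_eq_zero.1
    apply hsemi
    intro x
    have e1 := h8 g c (c * x)
    have e2 := h8 g c x
    linear_combination (norm := noncomm_ring) e1 - c * e2
  have h9 : g * (a * b - b * a) = 0 := by
    have := h8 a b 1
    rwa [mul_one] at this
  have h10 : (a * b - b * a) * g = 0 := by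
    rw [← hcen]
    exact h9
  -- 2 g^2 = g d[a,b]
  have h11 : g * g + g * g = g * d (a * b - b * a) := by
    have e1 := h8 (d a) b 1
    have e2 := h8 a (d b) 1
    have e3 : g = d (a * b) - d a * b - a * d b := hg
    have e4 : -g = d (b * a) - d b * a - b * d a := by
      rw [hg, ← jdef_anti d hd a b]
      rfl
    rw [mul_one] at e1 e2
    rw [map_sub]
    linear_combination (norm := noncomm_ring) g * e3 - g * e4 - e1 - e2
  have h12 := jr_lin d hd g (a * b - b * a)
  rw [h9, h10, map_zero, add_zero] at h12
  have e1 := h8 a b (d g)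
  have h13 : g * (d g * (a * b - b * a)) = 0 := by
    rw [← mul_assoc]
    exact e1
  have h14 : g * ((a * b - b * a) * d g) = 0 := by
    rw [← mul_assoc, h9, zero_mul]
  obtain ⟨k, hk⟩ : ∃ k, k = a * b - b * a := ⟨_, rfl⟩
  rw [← hk] at h9 h10 h11 h12 h13 h14
  have h15 : g * (g * d k) + g * (d k * g) = 0 := by
    linear_combination (norm := noncomm_ring) -(g * h12) - h13 - h14
  rw [← hcen (d k)] at h15
  have h16 : g * (g * d k) = 0 := htwo _ h15
  rw [← h11] at h16
  have h17 : g * (g * g) = 0 := by
    apply htwo
    linear_combination (norm := noncomm_ring) h16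
  have h18 : g * g = 0 := by
    apply hsemi
    intro x
    have e1 := hcen x
    linear_combination (norm := noncomm_ring) g * e1 * g * g + e1 * (g * (g * g)) + x * g * h17
  have h19 : g = 0 := by
    apply hsemi
    intro x
    have e1 := hcen x
    rw [e1, mul_assoc, h18, mul_zero]
  rw [← hg]
  exact h19

end JordanRing

/-- TARGET (Bresar): a Jordan derivation of a C*-algebra is a derivation. -/
theorem derivation_of_jordan {A : Type*} [CStarAlgebra A] (d : A →ₗ[ℂ] A)
    (hd : ∀ x, d (x * x) = x * d x + d x * x) :
    ∀ x y, d (x * y) = d x * y + x * d y := by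
  intro x y
  have htwo : ∀ z : A, z + z = 0 → z = 0 := by
    intro z hz
    rw [← two_smul ℂ z] at hz
    rcases smul_eq_zero.1 hz with h | h
    · exact absurd h two_ne_zero
    · exact h
  have h := jr_main d.toAddMonoidHom hd semiprime htwo x y
  have h1 : d (x * y) - d x * y - x * d y = 0 := h
  linear_combination (norm := noncomm_ring) h1

end Pool.Agent.Helper280.SID
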