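import Mathlib

set_option autoImplicit false

namespace Pool.Agent.Helper280.SIE

/-- A C*-algebra is semiprime. -/
lemma semiprime' {A : Type*} [CStarAlgebra A] (a : A) (h : ∀ x : A, a * x * a = 0) : a = 0 := by
  have h1 : (a * star a) * (a * star a) = 0 := by
    have := h (star a)
    rw [← mul_assoc, this, zero_mul]
  have h2 : a * star a = 0 := by
    have h3 : IsSelfAdjoint (a * star a) := IsSelfAdjoint.mul_star_self a
    have h4 : star (a * star a) * (a * star a) = 0 := by rw [h3.star_eq]; exact h1
    exact (CStarRing.star_mul_self_eq_zero_iff _).1 h4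
  exact (CStarRing.mul_star_self_eq_zero_iff _).1 h2

lemma deriv_pow {A : Type*} [CStarAlgebra A] (d : A →L[ℂ] A)
    (hd : ∀ x y, d (x * y) = d x * y + x * d y)
    (a : A) (hz : ∀ x, d a * x = x * d a) (n : ℕ) :
    d (a ^ (n + 1)) = (n + 1 : ℂ) • (a ^ n * d a) := by
  induction n with
  | zero => simp
  | succ n ih =>
    rw [pow_succ a (n + 1), hd, ih]
    push_cast
    have e1 : (n + 1 : ℂ) • (a ^ n * d a) * a = (n + 1 : ℂ) • (a ^ (n + 1) * d a) := by
      rw [smul_mul_assoc, mul_assoc, hz a, ← mul_assoc, ← pow_succ]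
    rw [e1]
    module

lemma deriv_exp {A : Type*} [CStarAlgebra A] (d : A →L[ℂ] A)
    (hd : ∀ x y, d (x * y) = d x * y + x * d y)
    (a : A) (hz : ∀ x, d a * x = x * d a) :
    d (NormedSpace.exp a) = NormedSpace.exp a * d a := by
  have h1 := NormedSpace.exp_series_hasSum_exp' (𝕂 := ℂ) a
  have h2 := d.hasSum h1
  have h3 : d 1 = 0 := by
    have := hd 1 1
    simpa using this
  have h4 : HasSum (fun n : ℕ => d (((n + 1).factorial : ℂ)⁻¹ • a ^ (n + 1)))
      (d (NormedSpace.exp a)) := by
    have := (hasSum_nat_add_iff' (f := fun n : ℕ => d ((n.factorial : ℂ)⁻¹ • a ^ n)) 1).2 h2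
    simpa [h3] using this
  have h5 : HasSum (fun n : ℕ => ((n.factorial : ℂ)⁻¹ • a ^ n) * d a)
      (NormedSpace.exp a * d a) := h1.mul_right (d a)
  refine h4.unique ?_
  convert h5 using 1
  funext n
  rw [map_smul, deriv_pow d hd a hz n, smul_smul, smul_mul_assoc]
  congr 1
  rw [Nat.factorial_succ]
  push_cast
  have hn : (n + 1 : ℂ) ≠ 0 := by exact_mod_cast Nat.succ_ne_zero n
  have hn' : (n.factorial : ℂ) ≠ 0 := by exact_mod_cast Nat.factorial_ne_zero n
  field_simp

lemma deriv_central_sa {A : Type*} [CStarAlgebra A] (d : A →L[ℂ] A)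
    (hd : ∀ x y, d (x * y) = d x * y + x * d y)
    (c : A) (hc : ∀ x, c * x = x * c) (hsa : IsSelfAdjoint c) : d c = 0 := by
  rcases subsingleton_or_nontrivial A with hA | hA
  · exact Subsingleton.elim _ _
  have hz : ∀ x, d c * x = x * d c := by
    intro x
    have h1 := hd c x
    have h2 := hd x c
    rw [hc x, h2] at h1
    have h3 : c * d x = d x * c := hc _
    rw [h3] at h1
    have h4 : d x * c + x * d c = d x * c + d c * x := by rw [h1]; abel
    exact (add_left_cancel h4).symm
  have hb : ∀ t : ℝ, 0 < t → t * ‖d c‖ ≤ ‖d‖ := by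
    intro t ht
    have hsat : IsSelfAdjoint (t • c) := (IsSelfAdjoint.all t).smul hsa
    set u : unitary A := selfAdjoint.expUnitary (⟨t • c, hsat⟩ : selfAdjoint A) with hu
    set a : A := Complex.I • (t • c) with ha
    have hua : (u : A) = NormedSpace.exp a := rfl
    have hda : d a = ((t : ℂ) * Complex.I) • d c := by
      have : a = ((t : ℂ) * Complex.I) • c := by
        rw [ha, mul_comm, mul_smul]
        rfl
      rw [this, map_smul]
    have hza : ∀ x, d a * x = x * d a := by
      intro x
      rw [hda, smul_mul_assoc, mul_smul_comm, hz]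
    have he := deriv_exp d hd a hza
    have hn : ‖d (NormedSpace.exp a)‖ ≤ ‖d‖ := by
      calc ‖d (NormedSpace.exp a)‖ ≤ ‖d‖ * ‖NormedSpace.exp a‖ := d.le_opNorm _
        _ = ‖d‖ := by rw [← hua, CStarRing.norm_coe_unitary, mul_one]
    rw [he, ← hua, CStarRing.norm_coe_unitary_mul, hda, norm_smul] at hn
    simpa [abs_of_pos ht] using hn
  by_contra hne
  have hpos : 0 < ‖d c‖ := norm_pos_iff.2 hne
  have h1 := hb ((‖d‖ + 1) / ‖d c‖) (by positivity)
  rw [div_mul_cancel₀ _ hpos.ne'] at h1
  linarith

/-- TARGET 1: a bounded derivation of a C*-algebra kills central elements. -/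
theorem deriv_central_zero {A : Type*} [CStarAlgebra A] (d : A →L[ℂ] A)
    (hd : ∀ x y, d (x * y) = d x * y + x * d y)
    (c : A) (hc : ∀ x, c * x = x * c) : d c = 0 := by
  have hs : ∀ x, star c * x = x * star c := by
    intro x
    have := congrArg star (hc (star x))
    simpa using this.symm
  have h1 : d (c + star c) = 0 := by
    refine deriv_central_sa d hd _ ?_ ?_
    · intro x; rw [add_mul, mul_add, hc, hs]
    · rw [IsSelfAdjoint, star_add, star_star, add_comm]
  have h2 : d (Complex.I • (c - star c)) = 0 := by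
    refine deriv_central_sa d hd _ ?_ ?_
    · intro x; rw [smul_mul_assoc, mul_smul_comm, sub_mul, mul_sub, hc, hs]
    · rw [IsSelfAdjoint, star_smul, star_sub, star_star]
      simp only [RCLike.star_def, Complex.conj_I]
      rw [neg_smul, ← smul_neg, neg_sub]
  rw [map_smul, smul_eq_zero, map_sub] at h2
  rw [map_add] at h1
  have h3 : d c - d (star c) = 0 := h2.resolve_left Complex.I_ne_zero
  have h4 : (2:ℂ) • d c = 0 := by
    have e1 : d (star c) = - d c := (neg_eq_of_add_eq_zero_right h1).symm
    rw [e1, sub_neg_eq_add] at h3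
    rw [two_smul]; exact h3
  exact (smul_eq_zero.1 h4).resolve_left two_ne_zero

/-- TARGET 2: a bounded symmetric biderivation of a C*-algebra is zero. -/
theorem symm_bider_zero {A : Type*} [CStarAlgebra A] (G : A → A →L[ℂ] A)
    (hsymm : ∀ x y, G x y = G y x)
    (hd : ∀ k x y, G k (x * y) = G k x * y + x * G k y) :
    ∀ x y, G x y = 0 := by
  have hl : ∀ x u k, G (x * u) k = G x k * u + x * G u k := by
    intro x u k
    rw [hsymm, hd, hsymm k x, hsymm k u]
  have h1 : ∀ x y u v, G x y * (u * v - v * u) = (x * y - y * x) * G u v := by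
    intro x y u v
    have e1 : G (x * u) (y * v) =
        (G x y * v + y * G x v) * u + x * (G u y * v + y * G u v) := by
      rw [hl, hd, hd]
    have e2 : G (x * u) (y * v) =
        (G x y * u + x * G u y) * v + y * (G x v * u + x * G u v) := by
      rw [hd, hl, hl]
    have e3 := e1.symm.trans e2
    have e4 : (G x y * v + y * G x v) * u + x * (G u y * v + y * G u v) -
        ((G x y * u + x * G u y) * v + y * (G x v * u + x * G u v)) = 0 := sub_eq_zero.2 e3
    have e5 : (x * y - y * x) * G u v - G x y * (u * v - v * u) = 0 := by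
      rw [← e4]; noncomm_ring
    exact (sub_eq_zero.1 e5).symm
  have h2 : ∀ x y z u v, G x y * z * (u * v - v * u) = (x * y - y * x) * z * G u v := by
    intro x y z u v
    have e1 := h1 x y (z * u) v
    have e2 := h1 x y z v
    rw [hl] at e1
    have e3 : G x y * z * (u * v - v * u) = G x y * (z * u * v - v * (z * u)) -
        G x y * (z * v - v * z) * u := by noncomm_ring
    rw [e3, e1, e2]
    noncomm_ring
  have h3 : ∀ x y z u v, G x y * z * (u * v - v * u) = 0 := by
    intro x y z u v
    have e1 := h2 x y z u v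
    have e2 := h2 y x z u v
    rw [hsymm y x] at e2
    have e3 : (y * x - x * y) * z * G u v = -((x * y - y * x) * z * G u v) := by noncomm_ring
    rw [e3, ← e1] at e2
    have e4 : (2:ℂ) • (G x y * z * (u * v - v * u)) = 0 := by
      rw [two_smul]
      nth_rewrite 1 [e2]
      exact neg_add_cancel _
    exact (smul_eq_zero.1 e4).resolve_left two_ne_zero
  intro x y
  set g : A := G x y with hg
  have hgc : ∀ w, g * w = w * g := by
    intro w
    refine sub_eq_zero.1 (semiprime' _ fun z => ?_)
    have e1 := h3 x y (w * z) g w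
    have e2 := h3 x y z g w
    rw [← hg] at e1 e2
    have e3 : (g * w - w * g) * z * (g * w - w * g) =
        g * (w * z) * (g * w - w * g) - w * (g * z * (g * w - w * g)) := by noncomm_ring
    rw [e3, e1, e2]; simp
  have hgu : ∀ u v, g * (u * v - v * u) = 0 := by
    intro u v
    have := h3 x y 1 u v
    rw [mul_one] at this
    exact this
  have hgy : ∀ w, g * y * w = w * (g * y) := by
    intro w
    have e1 := hgu y w
    have e2 : w * (g * y) = g * (w * y) := by rw [← mul_assoc, ← hgc w, mul_assoc]
    rw [e2, mul_assoc]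
    rw [mul_sub] at e1
    exact sub_eq_zero.1 e1
  have d1 := deriv_central_zero (G x) (hd x) (g * y) hgy
  have d2 := deriv_central_zero (G x) (hd x) g hgc
  rw [hd, d2, zero_mul, zero_add, ← hg] at d1
  refine semiprime' g fun z => ?_
  rw [mul_assoc, ← hgc z, ← mul_assoc, d1, zero_mul]

end Pool.Agent.Helper280.SIE
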