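import Mathlib
import Pool.Agent.Helper280.SI.Core
import Pool.Agent.Helper280.SI.PartA
import Pool.Agent.Helper280.SI.PartB
import Pool.Agent.Helper280.SI.PartC1
import Pool.Agent.Helper280.SI.PartC2
import Pool.Agent.Helper280.SI.PartD
import Pool.Agent.Helper280.SI.PartE

set_option autoImplicit false

namespace Pool.Agent.Helper280.SI

open scoped ENNReal NNReal

section Z

variable {A B : Type*} [CStarAlgebra A] [CStarAlgebra B] [Nontrivial A] [Nontrivial B]
  [PartialOrder A] [StarOrderedRing A] {T : A →ₗ[ℂ] B}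

/-- Core lemma (Z1). -/
lemma SpecIso.core (hT : SpecIso T) {K : ℝ} (hK1 : 1 ≤ K)
    (hK : ∀ b, ∃ a, T a = b ∧ ‖a‖ ≤ K * ‖b‖) {b x a : A} {b' : B} (hb : 0 ≤ b)
    (hx : T x = b' * T b ∨ T x = T b * b') (hba : b * a = 0) {ν : ℝ} (hν : 0 < ν)
    (h : ν • (star a * a) ≤ star a * (x + star x) * a) : a = 0 := by
  by_contra ha
  have hn : 0 < ‖a‖ := norm_pos_iff.2 ha
  refine hT.core_norm hK1 hK (a := ‖a‖⁻¹ • a) hb hx ?_ hν ?_ ?_
  · rw [mul_smul_comm, hba, smul_zero]
  · rw [norm_smul, norm_inv, norm_norm, inv_mul_cancel₀ hn.ne']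
  · have e1 : star (‖a‖⁻¹ • a) * (‖a‖⁻¹ • a) = (‖a‖⁻¹ * ‖a‖⁻¹) • (star a * a) := by
      rw [star_smul, star_trivial ‖a‖⁻¹, smul_mul_smul_comm]
    have e2 : star (‖a‖⁻¹ • a) * (x + star x) * (‖a‖⁻¹ • a)
        = (‖a‖⁻¹ * ‖a‖⁻¹) • (star a * (x + star x) * a) := by
      rw [star_smul, star_trivial ‖a‖⁻¹, smul_mul_assoc, smul_mul_smul_comm]
    rw [e1, e2, smul_comm]
    exact smul_le_smul_of_nonneg_left h (by positivity)

/-- half of (Z) -/
lemma SpecIso.Z_half (hT : SpecIso T) {K : ℝ} (hK1 : 1 ≤ K)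
    (hK : ∀ b, ∃ a, T a = b ∧ ‖a‖ ≤ K * ‖b‖) {b x h : A} {b' : B} (hb : 0 ≤ b)
    (hx : T x = b' * T b ∨ T x = T b * b') (hbh : b * h = 0) :
    star h * (x + star x) * h ≤ 0 := by
  obtain ⟨w, hw⟩ : ∃ w, w = x + star x := ⟨_, rfl⟩
  have hwsa : IsSelfAdjoint w := by rw [hw]; exact IsSelfAdjoint.add_star_self x
  rw [← hw]
  obtain ⟨y, hy⟩ : ∃ y, y = star h * w * h := ⟨_, rfl⟩
  have hysa : IsSelfAdjoint y := by
    rw [hy]
    exact hwsa.conjugate' h
  rw [← hy]
  by_contra hcon
  have hex : ∃ l ∈ spectrum ℝ y, 0 < l := by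
    by_contra hno
    push Not at hno
    apply hcon
    have := le_algebraMap_of_spectrum_le (R := ℝ) (r := 0) (a := y) hno
    simpa using this
  obtain ⟨l, hl, hl0⟩ := hex
  have hfc : Continuous (fun t : ℝ => max (t - l / 2) 0) := by fun_prop
  obtain ⟨v, hv⟩ : ∃ v, v = cfc (fun t : ℝ => max (t - l / 2) 0) y := ⟨_, rfl⟩
  have hv0 : 0 ≤ v := by
    rw [hv]
    exact cfc_nonneg (fun t _ => le_max_right _ _)
  have hvsa : star v = v := (IsSelfAdjoint.of_nonneg hv0).star_eq
  have hvne : v ≠ 0 := by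
    intro h0
    have h1 : max (l - l / 2) 0 ∈ spectrum ℝ v := by
      rw [hv, cfc_map_spectrum (R := ℝ) (fun t : ℝ => max (t - l / 2) 0) y]
      exact ⟨l, hl, rfl⟩
    rw [h0, spectrum.zero_eq] at h1
    have h2 : max (l - l / 2) 0 = 0 := h1
    have h3 : l - l / 2 ≤ 0 := by rw [← h2]; exact le_max_left _ _
    linarith
  have hvyv : (l / 2) • (v * v) ≤ v * y * v := by
    have e1 : v * v = cfc (fun t : ℝ => max (t - l / 2) 0 * max (t - l / 2) 0) y := by
      rw [hv, ← cfc_mul (fun t : ℝ => max (t - l / 2) 0) (fun t : ℝ => max (t - l / 2) 0) y]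
    have e2 : (l / 2) • (v * v) = cfc (fun t : ℝ => (l / 2) * (max (t - l / 2) 0 * max (t - l / 2) 0)) y := by
      rw [e1, ← cfc_smul (l / 2) _ y (by fun_prop)]
      simp only [smul_eq_mul]
    have e3 : v * y * v = cfc (fun t : ℝ => max (t - l / 2) 0 * t * max (t - l / 2) 0) y := by
      have e4 : y = cfc (fun t : ℝ => t) y := (cfc_id' ℝ y).symm
      have e5 : v * y = cfc (fun t : ℝ => max (t - l / 2) 0 * t) y := by
        rw [cfc_mul (fun t : ℝ => max (t - l / 2) 0) (fun t : ℝ => t) y (by fun_prop) (by fun_prop),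
          ← hv, ← e4]
      rw [cfc_mul (fun t : ℝ => max (t - l / 2) 0 * t) (fun t : ℝ => max (t - l / 2) 0) y
        (by fun_prop) (by fun_prop), ← e5, ← hv]
    rw [e2, e3]
    refine cfc_mono (fun t _ => ?_) (by fun_prop) (by fun_prop)
    rcases le_total t (l / 2) with ht | ht
    · rw [max_eq_right (by linarith)]; simp
    · rw [max_eq_left (by linarith)]
      nlinarith [mul_self_nonneg (t - l / 2)]
  -- a = h v
  have hastar : star (h * v) = v * star h := by rw [star_mul, hvsa]
  have hawa : star (h * v) * (x + star x) * (h * v) = v * y * v := by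
    rw [hastar, hy, hw]; simp only [mul_assoc]
  have haa : star (h * v) * (h * v) ≤ (‖h‖ ^ 2 + 1) • (v * v) := by
    have h1 : star h * h ≤ algebraMap ℝ A (‖h‖ ^ 2 + 1) :=
      CStarAlgebra.star_mul_le_algebraMap_norm_sq.trans (algebraMap_mono _ (by linarith))
    have h2 := star_left_conjugate_le_conjugate h1 v
    rw [hvsa] at h2
    have e1 : star (h * v) * (h * v) = v * (star h * h) * v := by
      rw [hastar]; simp only [mul_assoc]
    have e2 : v * (algebraMap ℝ A (‖h‖ ^ 2 + 1)) * v = (‖h‖ ^ 2 + 1) • (v * v) := by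
      rw [Algebra.algebraMap_eq_smul_one, mul_smul_comm, smul_mul_assoc, mul_one]
    rw [e1, ← e2]
    exact h2
  have hhpos : 0 < ‖h‖ ^ 2 + 1 := by positivity
  have hkey : (l / 2 / (‖h‖ ^ 2 + 1)) • (star (h * v) * (h * v))
      ≤ star (h * v) * (x + star x) * (h * v) := by
    rw [hawa]
    refine le_trans (smul_le_smul_of_nonneg_left haa (by positivity)) ?_
    rw [smul_smul, div_mul_cancel₀ _ hhpos.ne']
    exact hvyv
  have hbhv : b * (h * v) = 0 := by rw [← mul_assoc, hbh, zero_mul]
  have h0 : h * v = 0 := hT.core hK1 hK hb hx hbhv (by positivity) hkey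
  rw [h0] at hawa
  rw [← hawa] at hvyv
  simp only [mul_zero] at hvyv
  have hvv : 0 ≤ v * v := by
    have := star_mul_self_nonneg v
    rwa [hvsa] at this
  have h5 : (l / 2) • (v * v) = 0 := le_antisymm hvyv (smul_nonneg (by positivity) hvv)
  have h6 : v * v = 0 := (smul_eq_zero_iff_right (by positivity)).1 h5
  apply hvne
  have h7 : star v * v = 0 := by rw [hvsa]; exact h6
  exact (CStarRing.star_mul_self_eq_zero_iff v).1 h7

/-- (Z) -/
lemma SpecIso.Z (hT : SpecIso T) {K : ℝ} (hK1 : 1 ≤ K)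
    (hK : ∀ b, ∃ a, T a = b ∧ ‖a‖ ≤ K * ‖b‖) {b x h : A} {b' : B} (hb : 0 ≤ b)
    (hx : T x = b' * T b ∨ T x = T b * b') (hbh : b * h = 0) :
    star h * x * h = 0 := by
  have main : ∀ w : ℂ, star h * (w • x + star (w • x)) * h ≤ 0 := by
    intro w
    apply hT.Z_half hK1 hK (b' := w • b') hb _ hbh
    rcases hx with hx | hx
    · left; rw [map_smul, hx, smul_mul_assoc]
    · right; rw [map_smul, hx, mul_smul_comm]
  have e : ∀ w : ℂ, star h * (w • x + star (w • x)) * h
      = w • (star h * x * h) + star w • (star h * star x * h) := by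
    intro w
    rw [star_smul, mul_add, add_mul, mul_smul_comm, smul_mul_assoc, mul_smul_comm, smul_mul_assoc]
  have m1 := main 1
  have m2 := main (-1)
  have m3 := main Complex.I
  have m4 := main (-Complex.I)
  rw [e] at m1 m2 m3 m4
  have h1 : (1 : ℂ) • (star h * x * h) + star (1 : ℂ) • (star h * star x * h) = 0 := by
    apply le_antisymm m1
    have : (-1 : ℂ) • (star h * x * h) + star (-1 : ℂ) • (star h * star x * h)
        = -((1 : ℂ) • (star h * x * h) + star (1 : ℂ) • (star h * star x * h)) := by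
      rw [star_neg]; simp only [neg_smul]; abel
    rw [this] at m2
    exact neg_nonpos.1 m2
  have h2 : Complex.I • (star h * x * h) + star Complex.I • (star h * star x * h) = 0 := by
    apply le_antisymm m3
    have : (-Complex.I) • (star h * x * h) + star (-Complex.I) • (star h * star x * h)
        = -(Complex.I • (star h * x * h) + star Complex.I • (star h * star x * h)) := by
      rw [star_neg]; simp only [neg_smul]; abel
    rw [this] at m4
    exact neg_nonpos.1 m4
  have h3 : (2 : ℂ) • (star h * x * h) = 0 := by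
    have e3 : (2 : ℂ) • (star h * x * h)
        = ((1 : ℂ) • (star h * x * h) + star (1 : ℂ) • (star h * star x * h))
          - Complex.I • (Complex.I • (star h * x * h) + star Complex.I • (star h * star x * h)) := by
      rw [smul_add, smul_smul, smul_smul, star_one, Complex.star_def, Complex.conj_I, mul_neg,
        Complex.I_mul_I]
      module
    rw [e3, h1, h2]; simp
  exact (smul_eq_zero_iff_right (by norm_num)).1 h3

end Z

/-- The theorem in the nontrivial case. -/
theorem main_nontrivial {A B : Type*} [CStarAlgebra A] [CStarAlgebra B] [Nontrivial A]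
    [Nontrivial B] (T : A →ₗ[ℂ] B) (hs : Function.Surjective T) (h1 : T 1 = 1)
    (hr : ∀ a : A, spectralRadius ℂ (T a) = spectralRadius ℂ a) :
    Function.Injective T ∧ ∀ a : A, T (a * a) = T a * T a := by
  let _ : PartialOrder A := CStarAlgebra.spectralOrder A
  have _ : StarOrderedRing A := CStarAlgebra.spectralOrderedRing A
  have hT : SpecIso T := ⟨h1, hr⟩
  obtain ⟨hinj, hcont⟩ := SIB.inj_and_continuous T
    (fun a d R α β hR hα0 hβ0 hα hβ => SIA.three_circles a d R α β hR hα0 hβ0 hα hβ) hs hr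
  refine ⟨hinj, ?_⟩
  let Te : A ≃L[ℂ] B := (LinearEquiv.ofBijective T ⟨hinj, hs⟩).toContinuousLinearEquivOfContinuous hcont
  have hTe : ∀ a, Te a = T a := fun a => rfl
  have hTes : ∀ b, T (Te.symm b) = b := fun b => by rw [← hTe]; exact Te.apply_symm_apply b
  have hsTe : ∀ a, Te.symm (T a) = a := fun a => by rw [← hTe]; exact Te.symm_apply_apply a
  obtain ⟨K, hKdef⟩ : ∃ K : ℝ, K = max 1 ‖(Te.symm : B →L[ℂ] A)‖ := ⟨_, rfl⟩
  have hK1 : 1 ≤ K := by rw [hKdef]; exact le_max_left _ _
  have hK : ∀ b, ∃ a, T a = b ∧ ‖a‖ ≤ K * ‖b‖ := by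
    intro b
    refine ⟨Te.symm b, hTes b, ?_⟩
    calc ‖Te.symm b‖ ≤ ‖(Te.symm : B →L[ℂ] A)‖ * ‖b‖ := (Te.symm : B →L[ℂ] A).le_opNorm b
      _ ≤ K * ‖b‖ := by
        gcongr
        rw [hKdef]; exact le_max_right _ _
  let G : A → A →L[ℂ] A := fun k =>
    (Te.symm : B →L[ℂ] A).comp
      ((ContinuousLinearMap.mul ℂ B (T k)).comp (Te : A →L[ℂ] B)
        + ((ContinuousLinearMap.mul ℂ B).flip (T k)).comp (Te : A →L[ℂ] B))
      - ContinuousLinearMap.mul ℂ A k - (ContinuousLinearMap.mul ℂ A).flip k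
  have hG : ∀ k y, G k y = Te.symm (T k * T y + T y * T k) - k * y - y * k := fun k y => rfl
  have hsymm : ∀ x y, G x y = G y x := by
    intro x y
    rw [hG, hG, add_comm (T x * T y)]
    abel
  have hG1 : ∀ k, G k 1 = 0 := by
    intro k
    rw [hG, h1, mul_one, one_mul, mul_one, one_mul, map_add, hsTe]
    abel
  have hGZ : ∀ k b h : A, 0 ≤ b → b * h = 0 → star h * G k b * h = 0 := by
    intro k b h hb hbh
    have hhb : star h * b = 0 := by
      have := congrArg star hbh
      rwa [star_mul, star_zero, (IsSelfAdjoint.of_nonneg hb).star_eq] at this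
    have z1 : star h * Te.symm (T k * T b) * h = 0 :=
      hT.Z hK1 hK (b' := T k) hb (Or.inl (hTes _)) hbh
    have z2 : star h * Te.symm (T b * T k) * h = 0 :=
      hT.Z hK1 hK (b' := T k) hb (Or.inr (hTes _)) hbh
    rw [hG, map_add]
    have e : star h * (Te.symm (T k * T b) + Te.symm (T b * T k) - k * b - b * k) * h
        = star h * Te.symm (T k * T b) * h + star h * Te.symm (T b * T k) * h
          - star h * k * (b * h) - (star h * b) * k * h := by
      simp only [mul_add, add_mul, mul_sub, sub_mul, mul_assoc]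
    rw [e, z1, z2, hbh, hhb]
    simp
  have hJ : ∀ k x, G k (x * x) = x * G k x + G k x * x := by
    intro k
    exact SIC2.jordan_of_Z (fun y hy ε hε => SIC1.partition_exists y hy ε hε) (G k) (hG1 k)
      (hGZ k)
  have hD : ∀ k x y, G k (x * y) = G k x * y + x * G k y := by
    intro k
    exact SID.derivation_of_jordan (G k : A →ₗ[ℂ] A) (hJ k)
  have hG0 := SIE.symm_bider_zero G hsymm hD
  intro a
  have h2 := hG0 a a
  rw [hG] at h2
  have h3 : Te.symm (T a * T a + T a * T a) = a * a + a * a := by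
    rw [sub_sub, sub_eq_zero] at h2
    exact h2
  have h4 : T a * T a + T a * T a = T (a * a) + T (a * a) := by
    rw [← map_add, ← h3, hTes]
  have h5 : (2 : ℂ) • (T (a * a) - T a * T a) = 0 := by
    rw [two_smul]
    have : T (a * a) - T a * T a + (T (a * a) - T a * T a)
      = (T (a * a) + T (a * a)) - (T a * T a + T a * T a) := by abel
    rw [this, ← h4, sub_self]
  have h6 := (smul_eq_zero_iff_right (two_ne_zero (α := ℂ))).1 h5
  exact sub_eq_zero.1 h6

/-- The spectral isometry theorem. -/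
theorem main {A B : Type*} [CStarAlgebra A] [CStarAlgebra B]
    (T : A →ₗ[ℂ] B) (hs : Function.Surjective T) (h1 : T 1 = 1)
    (hr : ∀ a : A, spectralRadius ℂ (T a) = spectralRadius ℂ a) :
    Function.Injective T ∧ ∀ a : A, T (a * a) = T a * T a := by
  rcases subsingleton_or_nontrivial A with hA | hA
  · have hB : Subsingleton B := hs.subsingleton
    exact ⟨Function.injective_of_subsingleton _, fun a => Subsingleton.elim _ _⟩
  · rcases subsingleton_or_nontrivial B with hB | hB
    · exfalso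
      have h2 := hr 1
      have h3 : T 1 = 0 := Subsingleton.elim _ _
      have h4 : spectralRadius ℂ (T 1) = 0 := by
        rw [h3]; exact spectrum.spectralRadius_zero
      rw [h4, (IsSelfAdjoint.one A).spectralRadius_eq_nnnorm] at h2
      simp at h2
    · exact main_nontrivial T hs h1 hr

end Pool.Agent.Helper280.SI
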